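import Mathlib

/-!
Basic definitions for the linear range of weak sequenceability (MP_b4ec45_co).
Positions are natural numbers `0, ..., k-1`; an ordering is `e ∘ π` with `e : Fin k → G` injective.
-/

namespace Pool.Agent.SEQ

open Finset Equiv Function

variable {G : Type*} [AddCommGroup G] {k : ℕ}

/-- the element at position `p` (`0` outside the range) -/
def el (e : Fin k → G) (π : Perm (Fin k)) (p : ℕ) : G :=
  if h : p < k then e (π ⟨p, h⟩) else 0

/-- the partial sum of the first `j` elements -/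
def ps (e : Fin k → G) (π : Perm (Fin k)) (j : ℕ) : G := ∑ p ∈ range j, el e π p

/-- the `x`-th partial sum, in state `s = true` after swapping positions `x - 1` and `x` -/
def vv (e : Fin k → G) (π : Perm (Fin k)) (x : ℕ) (s : Bool) : G :=
  if s then ps e π x - el e π (x - 1) + el e π x else ps e π x

/-- agreement on the positions in `D` -/
def Agree (D : Finset ℕ) (π π' : Perm (Fin k)) : Prop :=
  ∀ p : Fin k, (p : ℕ) ∈ D → π p = π' p

/-- `f` depends only on the positions in `D` -/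
def Dep {β : Type*} (D : Finset ℕ) (f : Perm (Fin k) → β) : Prop :=
  ∀ π π', Agree D π π' → f π = f π'

open Classical in
/-- the number of permutations with property `E` -/
noncomputable def cnt (E : Perm (Fin k) → Prop) : ℕ := (univ.filter E).card

/-- the window between the `x`-th partial sum in state `s` and the `y`-th in state `r` -/
def win (x : ℕ) (s : Bool) (y : ℕ) (r : Bool) : Finset ℕ :=
  insert (if s then x - 1 else x) (insert (if r then y else y - 1) (Ico (x + 1) (y - 1)))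

/-- coincidence of the `x`-th partial sum in state `s` with the `y`-th in state `r`,
`2 ≤ y - x ≤ t` -/
def Co (e : Fin k → G) (t : ℕ) (π : Perm (Fin k)) (x : ℕ) (s : Bool) (y : ℕ) (r : Bool) : Prop :=
  x + 2 ≤ y ∧ y ≤ x + t ∧ y ≤ k ∧ (s = true → 1 ≤ x) ∧ (r = true → y < k) ∧
    vv e π x s = vv e π y r

/-- long coincidence (difference at least 4), symmetric form -/
def LC (e : Fin k → G) (t : ℕ) (π : Perm (Fin k)) (x : ℕ) (s : Bool) (y : ℕ) (r : Bool) : Prop :=
  (Co e t π x s y r ∧ x + 4 ≤ y) ∨ (Co e t π y r x s ∧ y + 4 ≤ x)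

/-- `x` is touched by a long coincidence -/
def InT (e : Fin k → G) (t : ℕ) (π : Perm (Fin k)) (x : ℕ) : Prop :=
  ∃ s y r, LC e t π x s y r

/-- implications between literals -/
def RR (e : Fin k → G) (t : ℕ) (π : Perm (Fin k)) (a b : ℕ × Bool) : Prop :=
  LC e t π a.1 a.2 b.1 (!b.2) ∨
    (a.2 = true ∧ b.2 = false ∧ (b.1 = a.1 + 1 ∨ a.1 = b.1 + 1) ∧ InT e t π a.1 ∧ InT e t π b.1)

/-- exit value of a stop at `q` of type `τ`, relative to `ps (q - 1)` -/
def uu (e : Fin k → G) (π : Perm (Fin k)) (τ : Fin 4) (q : ℕ) : G :=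
  (if τ = 0 ∨ τ = 2 then el e π (q - 1) else 0) + (if τ = 1 ∨ τ = 2 then el e π q else 0)

/-- entry value of a stop at `q` of type `τ`, relative to `ps (q - 1)` -/
def ww (e : Fin k → G) (π : Perm (Fin k)) (τ : Fin 4) (q : ℕ) : G :=
  if τ = 0 then el e π q else el e π (q - 1)

/-- the equations of a chain of `n` jumps -/
def Chain (e : Fin k → G) (π : Perm (Fin k)) (n : ℕ) (q : ℕ → ℕ) (τ : ℕ → Fin 4) : Prop :=
  ∀ i < n, ps e π (q i - 1) + uu e π (τ i) (q i) =
    ps e π (q (i + 1) - 1) + ww e π (τ (i + 1)) (q (i + 1))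

/-- one jump between literals -/
def JJ (e : Fin k → G) (t : ℕ) (π : Perm (Fin k)) (a b : ℕ × Bool) : Prop :=
  (2 ≤ a.1 ∧ a.1 < k ∧ 2 ≤ b.1 ∧ b.1 < k) ∧
  (a.1 + 3 ≤ b.1 ∨ b.1 + 3 ≤ a.1) ∧ a.1 ≤ b.1 + (t + 1) ∧ b.1 ≤ a.1 + (t + 1) ∧
  ∃ τ : Fin 4, (τ = 0 ↔ a.2 = false) ∧
    ps e π (a.1 - 1) + uu e π τ a.1 =
      ps e π (b.1 - 1) + ww e π (if b.2 then 1 else 0) b.1

/-- first bad event: a coincidence near the ends -/
def B1 (e : Fin k → G) (t : ℕ) (π : Perm (Fin k)) : Prop :=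
  ∃ x s y r, Co e t π x s y r ∧ (x ≤ 1 ∨ y = k)

/-- second bad event: a short coincidence near another coincidence -/
def B2 (e : Fin k → G) (t : ℕ) (π : Perm (Fin k)) : Prop :=
  ∃ x s y r x' s' y' r', Co e t π x s y r ∧ Co e t π x' s' y' r' ∧ y ≤ x + 3 ∧
    win x s y r ≠ win x' s' y' r' ∧
    ((x ≤ x' + 1 ∧ x' ≤ x + 1) ∨ (x ≤ y' + 1 ∧ y' ≤ x + 1) ∨
      (y ≤ x' + 1 ∧ x' ≤ y + 1) ∨ (y ≤ y' + 1 ∧ y' ≤ y + 1))

/-- near-cycles with `n` jumps -/
def NC (e : Fin k → G) (t n : ℕ) (π : Perm (Fin k)) : Prop :=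
  ∃ (q : ℕ → ℕ) (τ : ℕ → Fin 4), (∀ i ≤ n, 2 ≤ q i ∧ q i < k) ∧
    (∀ i < n, q i ≤ q (i + 1) + (t + 1) ∧ q (i + 1) ≤ q i + (t + 1)) ∧
    (∀ i j, i < j → j ≤ n → ¬ (i = 0 ∧ j = n) → q i + 3 ≤ q j ∨ q j + 3 ≤ q i) ∧
    (q 0 ≤ q n + 2 ∧ q n ≤ q 0 + 2) ∧ (τ n = 0 ∨ τ n = 1) ∧ Chain e π n q τ

/-- far paths with `n` jumps -/
def FP (e : Fin k → G) (t n : ℕ) (π : Perm (Fin k)) : Prop :=
  ∃ (q : ℕ → ℕ) (τ : ℕ → Fin 4), (∀ i ≤ n, 2 ≤ q i ∧ q i < k) ∧
    (∀ i < n, q i ≤ q (i + 1) + (t + 1) ∧ q (i + 1) ≤ q i + (t + 1)) ∧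
    (∀ i j, i < j → j ≤ n → q i + 3 ≤ q j ∨ q j + 3 ≤ q i) ∧
    (τ n = 0 ∨ τ n = 1) ∧ Chain e π n q τ

/-! ### Basic lemmas -/

theorem cnt_mono {E F : Perm (Fin k) → Prop} (h : ∀ π, E π → F π) : cnt E ≤ cnt F := by
  classical
  unfold cnt
  apply Finset.card_le_card
  intro π hπ
  simp only [Finset.mem_filter, Finset.mem_univ, true_and] at hπ ⊢
  exact h π hπ

theorem cnt_or_le (E F : Perm (Fin k) → Prop) : cnt (fun π => E π ∨ F π) ≤ cnt E + cnt F := by
  classical
  unfold cnt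
  calc _ ≤ ((univ.filter E) ∪ (univ.filter F)).card := by
        apply Finset.card_le_card
        intro π hπ
        simp only [Finset.mem_filter, Finset.mem_univ, true_and, Finset.mem_union] at hπ ⊢
        exact hπ
    _ ≤ _ := Finset.card_union_le _ _

theorem cnt_exists_le {ι : Type*} (J : Finset ι) (E : ι → Perm (Fin k) → Prop) :
    cnt (fun π => ∃ i ∈ J, E i π) ≤ ∑ i ∈ J, cnt (E i) := by
  classical
  unfold cnt
  calc _ ≤ (J.biUnion fun i => univ.filter (E i)).card := by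
        apply Finset.card_le_card
        intro π hπ
        simp only [Finset.mem_filter, Finset.mem_univ, true_and, Finset.mem_biUnion] at hπ ⊢
        exact hπ
    _ ≤ _ := Finset.card_biUnion_le

theorem cnt_true : cnt (fun _ : Perm (Fin k) => True) = k.factorial := by
  classical
  have h : cnt (fun _ : Perm (Fin k) => True) = (univ : Finset (Perm (Fin k))).card := by
    unfold cnt
    congr 1
    ext π
    simp
  rw [h, Finset.card_univ, Fintype.card_perm, Fintype.card_fin]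

theorem cnt_le_factorial (E : Perm (Fin k) → Prop) : cnt E ≤ k.factorial := by
  rw [← cnt_true]; exact cnt_mono (fun _ _ => trivial)

theorem exists_of_cnt_lt {E : Perm (Fin k) → Prop} (h : cnt E < k.factorial) : ∃ π, ¬ E π := by
  by_contra hc
  push Not at hc
  have : cnt (fun _ : Perm (Fin k) => True) ≤ cnt E := cnt_mono (fun π _ => hc π)
  rw [cnt_true] at this
  omega

theorem Agree.symm {D : Finset ℕ} {π π' : Perm (Fin k)} (h : Agree D π π') : Agree D π' π :=
  fun p hp => (h p hp).symm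

theorem Agree.mono {D D' : Finset ℕ} {π π' : Perm (Fin k)} (h : Agree D' π π') (hD : D ⊆ D') :
    Agree D π π' := fun p hp => h p (hD hp)

theorem Dep.mono {β : Type*} {D D' : Finset ℕ} {f : Perm (Fin k) → β} (h : Dep D f)
    (hD : D ⊆ D') : Dep D' f := fun π π' ha => h π π' (ha.mono hD)

theorem dep_el (e : Fin k → G) {D : Finset ℕ} {p : ℕ} (hp : p ∈ D) :
    Dep D (fun π => el e π p) := by
  intro π π' h
  show el e π p = el e π' p
  unfold el
  split
  · rename_i hk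
    rw [h ⟨p, hk⟩ hp]
  · rfl

theorem dep_sum_el (e : Fin k → G) {D Q : Finset ℕ} (hQ : Q ⊆ D) :
    Dep D (fun π => ∑ p ∈ Q, el e π p) := by
  intro π π' h
  exact Finset.sum_congr rfl (fun p hp => dep_el e (hQ hp) π π' h)

theorem dep_const {β : Type*} (D : Finset ℕ) (c : β) : Dep D (fun _ : Perm (Fin k) => c) :=
  fun _ _ _ => rfl

theorem Dep.map₂ {β γ δ : Type*} {D : Finset ℕ} {f : Perm (Fin k) → β} {g : Perm (Fin k) → γ}
    (hf : Dep D f) (hg : Dep D g) (φ : β → γ → δ) : Dep D (fun π => φ (f π) (g π)) := by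
  intro π π' h
  simp only [hf π π' h, hg π π' h]

theorem dep_uu (e : Fin k → G) {D : Finset ℕ} (τ : Fin 4) {q : ℕ} (h1 : q - 1 ∈ D) (h2 : q ∈ D) :
    Dep D (fun π => uu e π τ q) := by
  intro π π' h
  have a := dep_el e h1 π π' h
  have b := dep_el e h2 π π' h
  simp only [uu] at *
  rw [a, b]

theorem dep_ww (e : Fin k → G) {D : Finset ℕ} (τ : Fin 4) {q : ℕ} (h1 : q - 1 ∈ D) (h2 : q ∈ D) :
    Dep D (fun π => ww e π τ q) := by
  intro π π' h
  have a := dep_el e h1 π π' h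
  have b := dep_el e h2 π π' h
  simp only [ww] at *
  rw [a, b]

theorem ps_eq_add (e : Fin k → G) (π : Perm (Fin k)) {i j : ℕ} (h : i ≤ j) :
    ps e π j = ps e π i + ∑ p ∈ Ico i j, el e π p := by
  unfold ps
  rw [Finset.sum_range_add_sum_Ico _ h]

theorem ps_succ (e : Fin k → G) (π : Perm (Fin k)) (j : ℕ) :
    ps e π (j + 1) = ps e π j + el e π j := by
  unfold ps
  rw [Finset.sum_range_succ]

theorem ps_total (e : Fin k → G) (π : Perm (Fin k)) : ps e π k = ∑ i, e i := by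
  unfold ps
  rw [Finset.sum_range]
  have : ∀ i : Fin k, el e π i = e (π i) := fun i => by simp [el]
  simp only [this]
  exact Equiv.sum_comp π e

end Pool.Agent.SEQ
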