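import Pool.Agent.Lib_helper26.SEQ.Defs

/-! SEQ, block SAR. -/

namespace Pool.Agent.SEQ

open Finset

theorem sar_pow (m : ℕ) (hm : 20 ≤ m) : 22 * (m + 2) ≤ 2 ^ m := by
  induction m, hm using Nat.le_induction with
  | base => norm_num
  | succ m hm ih =>
    rw [pow_succ]
    omega

theorem sar_geom (y : ℝ) (hy : 0 ≤ y) (hy1 : y < 1) (M : ℕ) (hM : 1 ≤ M) :
    ∑ n ∈ Ico 2 (M + 1), y ^ (n - 1) ≤ (y - y ^ M) / (1 - y) := by
  have h1 : 0 < 1 - y := by linarith
  induction M, hM using Nat.le_induction with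
  | base => simp
  | succ M hM ih =>
    rw [Finset.sum_Ico_succ_top (by omega)]
    have e : M + 1 - 1 = M := by omega
    rw [e]
    have h2 : (y - y ^ (M + 1)) / (1 - y) = (y - y ^ M) / (1 - y) + y ^ M := by
      field_simp
      ring
    rw [h2]
    linarith

/-- SAR -/
theorem arith (t k N F c1 c2 cF : ℕ) (cN : ℕ → ℕ) (ht : 666 ≤ t) (hk : 2000 * t ≤ k)
    (hN : N = Nat.log 2 k + 1) (hF : 0 < F) (h1 : c1 * (k - t) ≤ F * (12 * t))
    (h2 : c2 * (k - t - 3) ^ 2 ≤ F * (384 * k * t))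
    (h3 : ∀ n, 2 ≤ n → n ≤ N → cN n * (k - 2 * (n + 1)) ^ n ≤
      F * (3 ^ (n - 1) * (5 * k * (2 * t + 3) ^ (n - 1)) * (4 ^ n * 2)))
    (h4 : cF * (k - 2 * (N + 1)) ^ N ≤ F * (3 ^ N * (k * (2 * t + 3) ^ N) * (4 ^ N * 2))) :
    c1 + c2 + ∑ n ∈ Ico 2 (N + 1), cN n + cF < F := by
  have hk0 : 1332000 ≤ k := by omega
  have hlog : 20 ≤ Nat.log 2 k := by
    apply Nat.le_log_of_pow_le (by norm_num)
    norm_num
    omega
  have hpow : 2 ^ Nat.log 2 k ≤ k := Nat.pow_log_le_self 2 (by omega)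
  have hpow2 : k < 2 ^ N := by
    rw [hN]
    exact Nat.lt_pow_succ_log_self (by norm_num) k
  have hN22 : 22 * (N + 1) ≤ k := by
    have := sar_pow _ hlog
    rw [hN]
    omega
  have hNpos : 1 ≤ N := by omega
  -- real variables
  have hK : (1332000 : ℝ) ≤ k := by exact_mod_cast hk0
  have hT : (666 : ℝ) ≤ t := by exact_mod_cast ht
  have hTK : 2000 * (t : ℝ) ≤ k := by exact_mod_cast hk
  have hFr : (0 : ℝ) < F := by exact_mod_cast hF
  have hL : ∀ n ≤ N, (10 / 11 : ℝ) * k ≤ ((k - 2 * (n + 1) : ℕ) : ℝ) := by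
    intro n hn
    have ha : 2 * (n + 1) ≤ k := by omega
    rw [Nat.cast_sub ha]
    have hb : (22 : ℝ) * (n + 1) ≤ k := by
      have : 22 * (n + 1) ≤ k := by omega
      exact_mod_cast this
    push_cast
    linarith
  have hK0 : (0 : ℝ) < k := by linarith
  have hx : ∀ n ≤ N, 12 * (2 * (t : ℝ) + 3) ≤ 0.0133 * ((k - 2 * (n + 1) : ℕ) : ℝ) := by
    intro n hn
    have := hL n hn
    have h5 : 12 * (2 * (t : ℝ) + 3) ≤ 0.0133 * ((10 / 11 : ℝ) * k) := by
      linarith
    linarith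
  -- first term
  have g1 : (c1 : ℝ) ≤ F * 0.007 := by
    have h5 : (c1 : ℝ) * ((k - t : ℕ) : ℝ) ≤ F * (12 * t) := by exact_mod_cast h1
    rw [Nat.cast_sub (by omega)] at h5
    have h6 : (0 : ℝ) < (k : ℝ) - t := by linarith
    have h7 : (c1 : ℝ) ≤ F * (12 * t) / ((k : ℝ) - t) := by
      rw [le_div_iff₀ h6]
      exact h5
    refine h7.trans ?_
    rw [div_le_iff₀ h6]
    have : (12 * (t : ℝ)) ≤ 0.007 * ((k : ℝ) - t) := by linarith
    calc F * (12 * (t : ℝ)) ≤ F * (0.007 * ((k : ℝ) - t)) := by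
          apply mul_le_mul_of_nonneg_left this hFr.le
      _ = F * 0.007 * ((k : ℝ) - t) := by ring
  -- second term
  have g2 : (c2 : ℝ) ≤ F * 0.2 := by
    have h5 : (c2 : ℝ) * ((k - t - 3 : ℕ) : ℝ) ^ 2 ≤ F * (384 * k * t) := by exact_mod_cast h2
    have h6 : (0.99 : ℝ) * k ≤ ((k - t - 3 : ℕ) : ℝ) := by
      rw [Nat.cast_sub (by omega), Nat.cast_sub (by omega)]
      push_cast
      linarith
    have h7 : (c2 : ℝ) * (0.99 * k) ^ 2 ≤ F * (384 * k * t) := by
      refine le_trans ?_ h5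
      apply mul_le_mul_of_nonneg_left _ (by positivity)
      exact pow_le_pow_left₀ (by positivity) h6 2
    have h8 : F * (384 * (k : ℝ) * t) ≤ F * 0.2 * (0.99 * k) ^ 2 := by
      have : 384 * (t : ℝ) ≤ 0.2 * 0.99 ^ 2 * k := by
        have : (384 : ℝ) * t ≤ 0.192 * k := by linarith
        nlinarith
      calc F * (384 * (k : ℝ) * t) = F * k * (384 * t) := by ring
        _ ≤ F * k * (0.2 * 0.99 ^ 2 * k) := by
            apply mul_le_mul_of_nonneg_left this (by positivity)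
        _ = F * 0.2 * (0.99 * k) ^ 2 := by ring
    have h9 : (0 : ℝ) < (0.99 * k) ^ 2 := by positivity
    exact le_of_mul_le_mul_right (h7.trans h8) h9
  -- the middle terms
  have g3 : ∀ n ∈ Ico 2 (N + 1), (cN n : ℝ) ≤ F * (44 * 0.0133 ^ (n - 1)) := by
    intro n hn
    rw [Finset.mem_Ico] at hn
    have hnN : n ≤ N := by omega
    obtain ⟨m, rfl⟩ : ∃ m, n = m + 1 := ⟨n - 1, by omega⟩
    have h5 := h3 (m + 1) hn.1 hnN
    have e : m + 1 - 1 = m := by omega
    rw [e] at h5 ⊢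
    set L : ℕ := k - 2 * (m + 1 + 1) with hLd
    have h6 : (cN (m + 1) : ℝ) * (L : ℝ) ^ (m + 1) ≤
        F * (3 ^ m * (5 * k * (2 * t + 3) ^ m) * (4 ^ (m + 1) * 2)) := by exact_mod_cast h5
    have hLr := hL (m + 1) hnN
    have hxr := hx (m + 1) hnN
    rw [← hLd] at hLr hxr
    have hL0 : (0 : ℝ) < L := by
      have : (0 : ℝ) < 10 / 11 * k := by positivity
      linarith
    have h7 : (3 : ℝ) ^ m * (5 * k * (2 * t + 3) ^ m) * (4 ^ (m + 1) * 2) =
        40 * k * (12 * (2 * t + 3)) ^ m := by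
      rw [mul_pow (12 : ℝ), show (12 : ℝ) = 3 * 4 by norm_num, mul_pow (3 : ℝ), pow_succ]
      ring
    rw [h7] at h6
    have h8 : (12 * (2 * (t : ℝ) + 3)) ^ m ≤ (0.0133 * L) ^ m :=
      pow_le_pow_left₀ (by positivity) hxr m
    have h9 : (cN (m + 1) : ℝ) * (L : ℝ) ^ (m + 1) ≤ F * (44 * 0.0133 ^ m) * (L : ℝ) ^ (m + 1) := by
      refine h6.trans ?_
      calc (F : ℝ) * (40 * k * (12 * (2 * t + 3)) ^ m) ≤ F * (40 * k * (0.0133 * L) ^ m) := by
            apply mul_le_mul_of_nonneg_left _ hFr.le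
            apply mul_le_mul_of_nonneg_left h8 (by positivity)
        _ ≤ F * (44 * L * (0.0133 * L) ^ m) := by
            apply mul_le_mul_of_nonneg_left _ hFr.le
            apply mul_le_mul_of_nonneg_right _ (by positivity)
            linarith
        _ = F * (44 * 0.0133 ^ m) * (L : ℝ) ^ (m + 1) := by
            rw [mul_pow, pow_succ]
            ring
    exact le_of_mul_le_mul_right h9 (by positivity)
  have g3' : ((∑ n ∈ Ico 2 (N + 1), cN n : ℕ) : ℝ) ≤ F * 0.6 := by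
    push_cast
    refine (Finset.sum_le_sum g3).trans ?_
    rw [← Finset.mul_sum, ← Finset.mul_sum]
    apply mul_le_mul_of_nonneg_left _ hFr.le
    have h5 := sar_geom 0.0133 (by norm_num) (by norm_num) N hNpos
    have h6 : ((0.0133 : ℝ) - 0.0133 ^ N) / (1 - 0.0133) ≤ 0.0133 / (1 - 0.0133) := by
      apply div_le_div_of_nonneg_right _ (by norm_num)
      have : (0 : ℝ) ≤ 0.0133 ^ N := by positivity
      linarith
    have h7 : (44 : ℝ) * (0.0133 / (1 - 0.0133)) ≤ 0.6 := by norm_num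
    linarith
  -- the last term
  have g4 : (cF : ℝ) ≤ F * 0.001 := by
    set L : ℕ := k - 2 * (N + 1) with hLd
    have h6 : (cF : ℝ) * (L : ℝ) ^ N ≤ F * (3 ^ N * (k * (2 * t + 3) ^ N) * (4 ^ N * 2)) := by
      exact_mod_cast h4
    have hLr := hL N le_rfl
    have hxr := hx N le_rfl
    rw [← hLd] at hLr hxr
    have hL0 : (0 : ℝ) < L := by
      have : (0 : ℝ) < 10 / 11 * k := by positivity
      linarith
    have h7 : (3 : ℝ) ^ N * (k * (2 * t + 3) ^ N) * (4 ^ N * 2) =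
        2 * k * (12 * (2 * t + 3)) ^ N := by
      rw [mul_pow (12 : ℝ), show (12 : ℝ) = 3 * 4 by norm_num, mul_pow (3 : ℝ)]
      ring
    rw [h7] at h6
    have h8 : (12 * (2 * (t : ℝ) + 3)) ^ N ≤ (1 / 64 * L) ^ N := by
      apply pow_le_pow_left₀ (by positivity)
      have : (0.0133 : ℝ) * L ≤ 1 / 64 * L := by
        apply mul_le_mul_of_nonneg_right _ hL0.le
        norm_num
      linarith
    have h9 : 2 * (k : ℝ) * (1 / 64) ^ N ≤ 0.001 := by
      have e1 : ((1 : ℝ) / 64) ^ N = 1 / ((2 : ℝ) ^ N) ^ 6 := by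
        rw [← pow_mul, mul_comm N 6, pow_mul, div_pow, one_pow]
        norm_num
      have e2 : (k : ℝ) ≤ 2 ^ N := by exact_mod_cast hpow2.le
      have e3 : (1332000 : ℝ) ≤ 2 ^ N := hK.trans e2
      have e4 : (0 : ℝ) < 2 ^ N := by positivity
      rw [e1, mul_one_div, div_le_iff₀ (by positivity)]
      calc 2 * (k : ℝ) ≤ 2 * 2 ^ N := by linarith
        _ ≤ 0.001 * (2 ^ N * 1332000) := by linarith
        _ ≤ 0.001 * (2 ^ N * 2 ^ N) := by
            apply mul_le_mul_of_nonneg_left _ (by norm_num)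
            apply mul_le_mul_of_nonneg_left e3 e4.le
        _ = 0.001 * (2 ^ N) ^ 2 := by ring
        _ ≤ 0.001 * (2 ^ N) ^ 6 := by
            apply mul_le_mul_of_nonneg_left _ (by norm_num)
            apply pow_le_pow_right₀ (by linarith) (by norm_num)
    have h10 : (cF : ℝ) * (L : ℝ) ^ N ≤ F * 0.001 * (L : ℝ) ^ N := by
      refine h6.trans ?_
      calc (F : ℝ) * (2 * k * (12 * (2 * t + 3)) ^ N) ≤ F * (2 * k * (1 / 64 * L) ^ N) := by
            apply mul_le_mul_of_nonneg_left _ hFr.le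
            apply mul_le_mul_of_nonneg_left h8 (by positivity)
        _ = F * (2 * k * (1 / 64) ^ N) * (L : ℝ) ^ N := by
            rw [mul_pow]
            ring
        _ ≤ F * 0.001 * (L : ℝ) ^ N := by
            apply mul_le_mul_of_nonneg_right _ (by positivity)
            apply mul_le_mul_of_nonneg_left h9 hFr.le
    exact le_of_mul_le_mul_right h10 (by positivity)
  have hfin : ((c1 + c2 + ∑ n ∈ Ico 2 (N + 1), cN n + cF : ℕ) : ℝ) < F := by
    rw [Nat.cast_add, Nat.cast_add, Nat.cast_add]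
    linarith
  exact_mod_cast hfin

end Pool.Agent.SEQ

-- author of this block: helper76
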