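import Pool.Agent.Lib_helper26.SEQ.Defs

/-! SEQ, block SAT. -/

namespace Pool.Agent.SEQ

theorem sat_contra (R : ℕ × Bool → ℕ × Bool → Prop)
    (hc : ∀ x s y r, R (x, s) (y, r) → R (y, !r) (x, !s)) {a b : ℕ × Bool}
    (h : Relation.ReflTransGen R a b) : Relation.ReflTransGen R (b.1, !b.2) (a.1, !a.2) := by
  induction h with
  | refl => exact Relation.ReflTransGen.refl
  | tail _ hbc ih => exact Relation.ReflTransGen.head (hc _ _ _ _ hbc) ih

theorem sat_closed (R : ℕ × Bool → ℕ × Bool → Prop) {C : Set (ℕ × Bool)}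
    (hC : ∀ a b, a ∈ C → R a b → b ∈ C) {a b : ℕ × Bool}
    (h : Relation.ReflTransGen R a b) (ha : a ∈ C) : b ∈ C := by
  induction h with
  | refl => exact ha
  | tail _ hbc ih => exact hC _ _ ih hbc

theorem sat_set (R : ℕ × Bool → ℕ × Bool → Prop)
    (hc : ∀ x s y r, R (x, s) (y, r) → R (y, !r) (x, !s))
    (hn : ∀ x s, ¬ Relation.ReflTransGen R (x, s) (x, !s)) (n : ℕ) :
    ∃ C : Set (ℕ × Bool), (∀ a b, a ∈ C → R a b → b ∈ C) ∧
      (∀ x s, (x, s) ∈ C → (x, !s) ∉ C) ∧ ∀ x < n, (x, true) ∈ C ∨ (x, false) ∈ C := by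
  induction n with
  | zero => exact ⟨∅, fun _ _ h => absurd h (Set.notMem_empty _), fun _ _ h => absurd h (Set.notMem_empty _),
      fun x hx => absurd hx (Nat.not_lt_zero _)⟩
  | succ n ih =>
    obtain ⟨C, h1, h2, h3⟩ := ih
    by_cases hC : (n, true) ∈ C ∨ (n, false) ∈ C
    · refine ⟨C, h1, h2, fun x hx => ?_⟩
      rcases Nat.lt_succ_iff_lt_or_eq.mp hx with h | rfl
      · exact h3 x h
      · exact hC
    · push Not at hC
      refine ⟨C ∪ {b | Relation.ReflTransGen R (n, false) b}, ?_, ?_, ?_⟩
      · rintro a b (ha | ha) hab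
        · exact Or.inl (h1 a b ha hab)
        · exact Or.inr (Relation.ReflTransGen.tail ha hab)
      · intro x s hx hx'
        rcases hx with hx | hx
        · rcases hx' with hx' | hx'
          · exact h2 x s hx hx'
          · have h4 := sat_contra R hc hx'
            simp only [Bool.not_not, Bool.not_false] at h4
            exact hC.1 (sat_closed R h1 h4 hx)
        · rcases hx' with hx' | hx'
          · have h4 := sat_contra R hc hx
            simp only [Bool.not_false] at h4
            exact hC.1 (sat_closed R h1 h4 hx')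
          · have h4 := sat_contra R hc hx'
            simp only [Bool.not_not, Bool.not_false] at h4
            exact hn n false (Relation.ReflTransGen.trans hx h4)
      · intro x hx
        rcases Nat.lt_succ_iff_lt_or_eq.mp hx with h | rfl
        · rcases h3 x h with h | h
          · exact Or.inl (Or.inl h)
          · exact Or.inr (Or.inl h)
        · exact Or.inr (Or.inr Relation.ReflTransGen.refl)

/-- SAT -/
theorem two_sat (R : ℕ × Bool → ℕ × Bool → Prop)
    (hc : ∀ x s y r, R (x, s) (y, r) → R (y, !r) (x, !s))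
    (hn : ∀ x s, ¬ Relation.ReflTransGen R (x, s) (x, !s)) (n : ℕ) :
    ∃ σ : ℕ → Bool, ∀ x y r, x < n → y < n → R (x, σ x) (y, r) → σ y = r := by
  classical
  obtain ⟨C, h1, h2, h3⟩ := sat_set R hc hn n
  refine ⟨fun x => decide ((x, true) ∈ C), fun x y r hx _ hR => ?_⟩
  have hmem : (x, decide ((x, true) ∈ C)) ∈ C := by
    by_cases h : (x, true) ∈ C
    · rw [decide_eq_true h]
      exact h
    · rw [decide_eq_false h]
      exact (h3 x hx).resolve_left h
  have hy := h1 _ _ hmem hR
  cases r with
  | true => exact decide_eq_true hy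
  | false =>
    apply decide_eq_false
    exact fun h => h2 y true h hy

end Pool.Agent.SEQ

-- author of this block: helper76
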