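import Pool.Agent.Lib_helper26.SEQ.Defs

/-! Block SCA. -/

namespace Pool.Agent.SEQ

open Finset Equiv Function

variable {G : Type*} [AddCommGroup G] {k : ℕ}

theorem sca_LC {e : Fin k → G} {t : ℕ} {π : Perm (Fin k)} (hB1 : ¬ B1 e t π) {x : ℕ} {s : Bool}
    {y : ℕ} {r : Bool} (h : LC e t π x s y r) :
    (2 ≤ x ∧ x < k ∧ 2 ≤ y ∧ y < k) ∧ (x + 4 ≤ y ∨ y + 4 ≤ x) ∧ x ≤ y + t ∧ y ≤ x + t ∧
      vv e π x s = vv e π y r := by
  rcases h with ⟨h, h4⟩ | ⟨h, h4⟩
  · have hb : ¬ (x ≤ 1 ∨ y = k) := fun hc => hB1 ⟨x, s, y, r, h, hc⟩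
    obtain ⟨h1, h2, h3, _, _, h5⟩ := h
    exact ⟨by omega, by omega, by omega, by omega, h5⟩
  · have hb : ¬ (y ≤ 1 ∨ x = k) := fun hc => hB1 ⟨y, r, x, s, h, hc⟩
    obtain ⟨h1, h2, h3, _, _, h5⟩ := h
    exact ⟨by omega, by omega, by omega, by omega, h5.symm⟩

theorem sca_ps (e : Fin k → G) (π : Perm (Fin k)) {q : ℕ} (hq : 2 ≤ q) :
    ps e π q = ps e π (q - 1) + el e π (q - 1) := by
  have := ps_succ e π (q - 1)
  rwa [show q - 1 + 1 = q by omega] at this

theorem sca_ww (e : Fin k → G) (π : Perm (Fin k)) {q : ℕ} (hq : 2 ≤ q) (s : Bool) :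
    vv e π q (!s) = ps e π (q - 1) + ww e π (if s then 1 else 0) q := by
  have h := sca_ps e π hq
  cases s
  · simp only [vv, ww, Bool.not_false, if_true, h, Bool.false_eq_true, if_false]
    abel
  · simp only [vv, ww, Bool.not_true, if_true, h, Bool.false_eq_true, if_false]
    rw [if_neg (by decide)]

theorem sca_uu (e : Fin k → G) (π : Perm (Fin k)) {q : ℕ} (hq : 2 ≤ q) (s : Bool) :
    vv e π q s = ps e π (q - 1) + uu e π (if s then 1 else 0) q := by
  have h := sca_ps e π hq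
  cases s
  · simp [vv, uu, h]
  · simp only [vv, uu, if_true, h]
    rw [if_neg (by decide), if_pos (by decide)]
    abel

theorem jump_of_path (e : Fin k → G) (t : ℕ) (π : Perm (Fin k)) (hB1 : ¬ B1 e t π)
    (a b : ℕ × Bool) (h : Relation.ReflTransGen (RR e t π) a b) :
    ∃ c : ℕ × Bool, Relation.ReflTransGen (JJ e t π) a c ∧
      (b = c ∨ (c.2 = true ∧ b.2 = false ∧ (b.1 = c.1 + 1 ∨ c.1 = b.1 + 1) ∧
        InT e t π c.1 ∧ InT e t π b.1)) := by
  induction h with
  | refl => exact ⟨a, Relation.ReflTransGen.refl, Or.inl rfl⟩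
  | @tail b b' _ hstep ih =>
    obtain ⟨c, hc, hbc⟩ := ih
    rcases hbc with rfl | ⟨hc2, hb2, hadj, hT1, hT2⟩
    · rcases hstep with hL | hA
      · obtain ⟨h1, h2, h3, h4, h5⟩ := sca_LC hB1 hL
        refine ⟨b', hc.tail ⟨by omega, by omega, by omega, by omega,
          (if b.2 then 1 else 0), ?_, ?_⟩, Or.inl rfl⟩
        · cases b.2 <;> simp
        · rw [← sca_uu e π h1.1, ← sca_ww e π h1.2.2.1, h5]
      · exact ⟨b, hc, Or.inr hA⟩
    · rcases hstep with hL | hA
      · obtain ⟨h1, h2, h3, h4, h5⟩ := sca_LC hB1 hL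
        obtain ⟨s, y, r, hcL⟩ := hT1
        obtain ⟨g1, _⟩ := sca_LC hB1 hcL
        rw [hb2] at h5
        rw [sca_ww e π h1.2.2.1] at h5
        rcases hadj with hadj | hadj
        · refine ⟨b', hc.tail ⟨by omega, by omega, by omega, by omega, 2, ?_, ?_⟩, Or.inl rfl⟩
          · simp [hc2]
          · rw [← h5, hadj]
            simp only [vv, uu, Bool.false_eq_true, if_false]
            rw [ps_succ, sca_ps e π g1.1, if_pos (by decide), if_pos (by decide)]
            abel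
        · refine ⟨b', hc.tail ⟨by omega, by omega, by omega, by omega, 3, ?_, ?_⟩, Or.inl rfl⟩
          · simp [hc2]
          · rw [← h5]
            simp only [vv, uu, Bool.false_eq_true, if_false]
            rw [if_neg (by decide), if_neg (by decide), hadj, Nat.add_sub_cancel, add_zero, add_zero]
      · exact absurd hA.1 (by rw [hb2]; decide)

end Pool.Agent.SEQ

-- author of this block: helper22
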