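import Pool.Agent.Lib_helper26.SEQ.Defs

/-! Block SCB (MP_b4ec45_co, linear range): `no_bad_jump_path`. -/

namespace Pool.Agent.SEQ

open Finset Equiv Function

variable {G : Type*} [AddCommGroup G] {k : ℕ}

theorem scb_seq {α : Type*} {R : α → α → Prop} {a c : α} (h : Relation.ReflTransGen R a c) :
    ∃ (n : ℕ) (f : ℕ → α), f 0 = a ∧ f n = c ∧ ∀ i < n, R (f i) (f (i + 1)) := by
  induction h with
  | refl => exact ⟨0, fun _ => a, rfl, rfl, fun i hi => absurd hi (Nat.not_lt_zero i)⟩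
  | @tail b c _ hbc ih =>
    obtain ⟨n, f, h0, hn, hR⟩ := ih
    refine ⟨n + 1, fun i => if i ≤ n then f i else c, ?_, ?_, ?_⟩
    · simp [h0]
    · simp
    · intro i hi
      rcases Nat.lt_or_ge i n with h | h
      · have h1 : i ≤ n := h.le
        have h2 : i + 1 ≤ n := h
        simp only [h1, h2, if_true]
        exact hR i h
      · have h1 : i = n := by omega
        subst h1
        simp only [le_refl, if_true, Nat.not_succ_le_self, if_false]
        rw [hn]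
        exact hbc

theorem scb_ww (e : Fin k → G) (π : Perm (Fin k)) {τ τ' : Fin 4} (h : τ = 0 ↔ τ' = 0) (q : ℕ) :
    ww e π τ q = ww e π τ' q := by
  unfold ww
  by_cases h0 : τ = 0
  · rw [if_pos h0, if_pos (h.1 h0)]
  · rw [if_neg h0, if_neg (fun h' => h0 (h.2 h'))]

theorem scb_chain (e : Fin k → G) (t : ℕ) (π : Perm (Fin k)) (f : ℕ → ℕ × Bool) (i M : ℕ)
    (hJ : ∀ l < M, JJ e t π (f (i + l)) (f (i + l + 1))) :
    ∃ τ : ℕ → Fin 4, (τ M = 0 ∨ τ M = 1) ∧ Chain e π M (fun l => (f (i + l)).1) τ := by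
  have h : ∀ l, ∃ τ : Fin 4, l < M → ((τ = 0 ↔ (f (i + l)).2 = false) ∧
      ps e π ((f (i + l)).1 - 1) + uu e π τ (f (i + l)).1 =
        ps e π ((f (i + l + 1)).1 - 1) + ww e π (if (f (i + l + 1)).2 then 1 else 0)
          (f (i + l + 1)).1) := by
    intro l
    by_cases hl : l < M
    · obtain ⟨_, _, _, _, τ, h1, h2⟩ := hJ l hl
      exact ⟨τ, fun _ => ⟨h1, h2⟩⟩
    · exact ⟨0, fun h => absurd h hl⟩
  choose τ hτ using h
  refine ⟨fun l => if l < M then τ l else (if (f (i + l)).2 then 1 else 0), ?_, ?_⟩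
  · simp only [lt_irrefl, if_false]
    cases (f (i + M)).2 <;> simp
  · intro l hl
    obtain ⟨_, h2⟩ := hτ l hl
    simp only [hl, if_true]
    rw [show i + (l + 1) = i + l + 1 by ring, h2]
    congr 1
    apply scb_ww
    by_cases hl2 : l + 1 < M
    · obtain ⟨h3, _⟩ := hτ (l + 1) hl2
      rw [show i + (l + 1) = i + l + 1 by ring] at h3
      simp only [hl2, if_true]
      rw [h3]
      cases (f (i + l + 1)).2 <;> simp
    · simp only [hl2, if_false]

theorem no_bad_jump_path (e : Fin k → G) (t N : ℕ) (π : Perm (Fin k))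
    (hNC : ∀ n, 2 ≤ n → n ≤ N → ¬ NC e t n π) (hFP : ¬ FP e t N π) (a c : ℕ × Bool)
    (h : Relation.ReflTransGen (JJ e t π) a c) (hne : a ≠ c) : a.1 + 2 < c.1 ∨ c.1 + 2 < a.1 := by
  classical
  by_contra hcon
  push Not at hcon
  obtain ⟨n, f, h0, hn, hJ⟩ := scb_seq h
  have hn1 : 1 ≤ n := by
    rcases Nat.eq_zero_or_pos n with h1 | h1
    · subst h1
      exact absurd (h0.symm.trans hn) hne
    · exact h1
  have hex : ∃ d, 1 ≤ d ∧ ∃ i, i + d ≤ n ∧ (f i).1 ≤ (f (i + d)).1 + 2 ∧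
      (f (i + d)).1 ≤ (f i).1 + 2 := by
    refine ⟨n, hn1, 0, by omega, ?_, ?_⟩
    · rw [Nat.zero_add, h0, hn]; exact hcon.2
    · rw [Nat.zero_add, h0, hn]; exact hcon.1
  set d := Nat.find hex with hd
  obtain ⟨hd1, i, hid, hc1, hc2⟩ := Nat.find_spec hex
  rw [← hd] at hd1 hid hc1 hc2
  have hmin : ∀ u v, u < v → v - u < d → v ≤ n →
      (f u).1 + 3 ≤ (f v).1 ∨ (f v).1 + 3 ≤ (f u).1 := by
    intro u v huv h1 h2
    by_contra hc
    push Not at hc
    refine Nat.find_min hex h1 ⟨by omega, u, by omega, ?_, ?_⟩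
    · rw [show u + (v - u) = v by omega]; omega
    · rw [show u + (v - u) = v by omega]; omega
  have hd2 : 2 ≤ d := by
    by_contra hlt
    have h1 : d = 1 := by omega
    rw [h1] at hc1 hc2 hid
    obtain ⟨_, hfar, _⟩ := hJ i (by omega)
    omega
  have hJ' : ∀ l < d, JJ e t π (f (i + l)) (f (i + l + 1)) := fun l hl => hJ (i + l) (by omega)
  have hrange : ∀ l ≤ d, 2 ≤ (f (i + l)).1 ∧ (f (i + l)).1 < k := by
    intro l hl
    rcases Nat.lt_or_ge l d with h1 | h1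
    · obtain ⟨h2, _⟩ := hJ' l h1
      exact ⟨h2.1, h2.2.1⟩
    · have h2 : l = (d - 1) + 1 := by omega
      obtain ⟨h3, _⟩ := hJ' (d - 1) (by omega)
      rw [show i + l = i + (d - 1) + 1 by omega]
      exact ⟨h3.2.2.1, h3.2.2.2⟩
  have hstep : ∀ l < d, (f (i + l)).1 ≤ (f (i + (l + 1))).1 + (t + 1) ∧
      (f (i + (l + 1))).1 ≤ (f (i + l)).1 + (t + 1) := by
    intro l hl
    obtain ⟨_, _, h2, h3, _⟩ := hJ' l hl
    exact ⟨h2, h3⟩
  rcases Nat.lt_or_ge N d with hN | hN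
  · obtain ⟨τ, hτ1, hτ2⟩ := scb_chain e t π f i N fun l hl => hJ' l (by omega)
    refine hFP ⟨fun l => (f (i + l)).1, τ, fun l hl => hrange l (by omega),
      fun l hl => hstep l (by omega), fun u v huv hv => ?_, hτ1, hτ2⟩
    exact hmin (i + u) (i + v) (by omega) (by omega) (by omega)
  · obtain ⟨τ, hτ1, hτ2⟩ := scb_chain e t π f i d hJ'
    refine hNC d hd2 hN ⟨fun l => (f (i + l)).1, τ, hrange, hstep,
      fun u v huv hv huv0 => ?_, ⟨hc1, hc2⟩, hτ1, hτ2⟩
    exact hmin (i + u) (i + v) (by omega) (by omega) (by omega)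

end Pool.Agent.SEQ

-- author of this block: helper38
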