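import Pool.Agent.Lib_helper26.SEQ.Defs

/-!
Block SCN: counting sequences with bounded steps.
-/

namespace Pool.Agent.SEQ

open Finset Equiv Function

theorem seq_count (k t n : ℕ) :
    ((Fintype.piFinset fun _ : Fin (n + 1) => range k).filter fun q => ∀ i : Fin n,
      q i.castSucc ≤ q i.succ + (t + 1) ∧ q i.succ ≤ q i.castSucc + (t + 1)).card ≤
      k * (2 * t + 3) ^ n := by
  classical
  have hcard : (range k ×ˢ Fintype.piFinset fun _ : Fin n => range (2 * t + 3)).card =
      k * (2 * t + 3) ^ n := by
    rw [Finset.card_product, Fintype.card_piFinset]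
    simp
  rw [← hcard]
  refine Finset.card_le_card_of_injOn
    (fun q : Fin (n + 1) → ℕ => (q 0, fun i : Fin n => q i.succ + (t + 1) - q i.castSucc)) ?_ ?_
  · intro q hq
    simp only [Finset.coe_filter, Fintype.mem_piFinset, Finset.mem_range, Set.mem_ofPred_eq] at hq
    simp only [Finset.coe_product, Set.mem_prod, Finset.mem_coe, Finset.mem_range,
      Fintype.mem_piFinset]
    refine ⟨hq.1 0, fun i => ?_⟩
    have := hq.2 i
    omega
  · intro q hq q' hq' heq
    simp only [Finset.coe_filter, Fintype.mem_piFinset, Finset.mem_range,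
      Set.mem_ofPred_eq] at hq hq'
    rw [Prod.mk.injEq] at heq
    obtain ⟨h0, h1⟩ := heq
    funext i
    induction i using Fin.induction with
    | zero => exact h0
    | succ i ih =>
      have h2 : q i.succ + (t + 1) - q i.castSucc = q' i.succ + (t + 1) - q' i.castSucc :=
        congrFun h1 i
      have h3 := hq.2 i
      have h4 := hq'.2 i
      omega

theorem seq_count_near (k t n : ℕ) (hn : 1 ≤ n) :
    ((Fintype.piFinset fun _ : Fin (n + 1) => range k).filter fun q => (∀ i : Fin n,
      q i.castSucc ≤ q i.succ + (t + 1) ∧ q i.succ ≤ q i.castSucc + (t + 1)) ∧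
      q 0 ≤ q (Fin.last n) + 2 ∧ q (Fin.last n) ≤ q 0 + 2).card ≤
      5 * k * (2 * t + 3) ^ (n - 1) := by
  classical
  obtain ⟨m, rfl⟩ : ∃ m, n = m + 1 := ⟨n - 1, by omega⟩
  rw [Nat.add_sub_cancel]
  have hcard : (range 5 ×ˢ (range k ×ˢ Fintype.piFinset fun _ : Fin m =>
      range (2 * t + 3))).card = 5 * k * (2 * t + 3) ^ m := by
    rw [Finset.card_product, Finset.card_product, Fintype.card_piFinset]
    simp [mul_assoc]
  rw [← hcard]
  refine Finset.card_le_card_of_injOn
    (fun q : Fin (m + 1 + 1) → ℕ => (q (Fin.last (m + 1)) + 2 - q 0, (q 0,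
      fun i : Fin m => q i.castSucc.succ + (t + 1) - q i.castSucc.castSucc))) ?_ ?_
  · intro q hq
    simp only [Finset.coe_filter, Fintype.mem_piFinset, Finset.mem_range, Set.mem_ofPred_eq] at hq
    simp only [Finset.coe_product, Set.mem_prod, Finset.mem_coe, Finset.mem_range,
      Fintype.mem_piFinset]
    refine ⟨?_, hq.1 0, fun i => ?_⟩
    · have := hq.2.2
      omega
    · have := hq.2.1 i.castSucc
      omega
  · intro q hq q' hq' heq
    simp only [Finset.coe_filter, Fintype.mem_piFinset, Finset.mem_range,
      Set.mem_ofPred_eq] at hq hq'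
    rw [Prod.mk.injEq, Prod.mk.injEq] at heq
    obtain ⟨hl, h0, h1⟩ := heq
    have key : ∀ i : Fin (m + 1), q i.castSucc = q' i.castSucc := by
      intro i
      induction i using Fin.induction with
      | zero => exact h0
      | succ i ih =>
        have h2 : q i.castSucc.succ + (t + 1) - q i.castSucc.castSucc =
          q' i.castSucc.succ + (t + 1) - q' i.castSucc.castSucc := congrFun h1 i
        have h3 := hq.2.1 i.castSucc
        have h4 := hq'.2.1 i.castSucc
        rw [← Fin.succ_castSucc]
        omega
    funext i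
    refine Fin.lastCases ?_ (fun i => key i) i
    have h3 := hq.2.2
    have h4 := hq'.2.2
    omega

end Pool.Agent.SEQ

-- author of this block: helper95
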