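import Pool.Agent.Lib_helper26.SEQ.Defs

namespace Pool.Agent.SEQ

open Finset Equiv Function

variable {G : Type*} [AddCommGroup G] {k : ℕ}

theorem swn_mem1 (x : ℕ) (s : Bool) (y : ℕ) (r : Bool) (hxy : x + 2 ≤ y) :
    (if s then x - 1 else x) ∉ insert (if r then y else y - 1) (Ico (x + 1) (y - 1)) := by
  rw [Finset.mem_insert, Finset.mem_Ico]
  cases s <;> cases r <;> simp <;> omega

theorem swn_mem2 (x y : ℕ) (r : Bool) :
    (if r then y else y - 1) ∉ Ico (x + 1) (y - 1) := by
  rw [Finset.mem_Ico]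
  cases r <;> simp <;> omega

theorem win_sum (e : Fin k → G) (π : Perm (Fin k)) (x : ℕ) (s : Bool) (y : ℕ) (r : Bool)
    (hxy : x + 2 ≤ y) (hs : s = true → 1 ≤ x) :
    vv e π y r - vv e π x s = ∑ p ∈ win x s y r, el e π p := by
  unfold win
  rw [Finset.sum_insert (swn_mem1 x s y r hxy), Finset.sum_insert (swn_mem2 x y r)]
  have h1 : ps e π y = ps e π x + el e π x + ∑ p ∈ Ico (x + 1) (y - 1), el e π p +
      el e π (y - 1) := by
    have h2 := ps_succ e π (y - 1)
    rw [Nat.sub_add_cancel (by omega)] at h2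
    rw [h2, ps_eq_add e π (show x + 1 ≤ y - 1 by omega), ps_succ]
  cases s <;> cases r <;> simp only [vv, if_true, if_false, Bool.false_eq_true] <;> rw [h1] <;> abel

theorem win_card (x : ℕ) (s : Bool) (y : ℕ) (r : Bool) (hxy : x + 2 ≤ y)
    (hs : s = true → 1 ≤ x) : (win x s y r).card = y - x := by
  unfold win
  rw [Finset.card_insert_of_notMem (swn_mem1 x s y r hxy),
    Finset.card_insert_of_notMem (swn_mem2 x y r), Nat.card_Ico]
  omega

theorem win_subset (k x : ℕ) (s : Bool) (y : ℕ) (r : Bool) (hxy : x + 2 ≤ y) (hy : y ≤ k)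
    (hr : r = true → y < k) : win x s y r ⊆ range k := by
  intro p hp
  unfold win at hp
  rw [Finset.mem_insert, Finset.mem_insert, Finset.mem_Ico] at hp
  rw [Finset.mem_range]
  rcases hp with hp | hp | hp
  · cases s <;> simp at hp <;> omega
  · cases r
    · simp at hp; omega
    · have := hr rfl; simp at hp; omega
  · omega

end Pool.Agent.SEQ

-- author of this block: helper58
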