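import Pool.Agent.Lib_helper26.SEQ.Defs
import Pool.Agent.Lib_helper26.SEQ.WSWN

/-! Block SDE: the set of swaps defined by a solution of the 2-SAT problem. -/

namespace Pool.Agent.SEQ

open Finset Equiv Function

variable {G : Type*} [AddCommGroup G] {k : ℕ}

theorem sde_long {e : Fin k → G} {t : ℕ} {π : Perm (Fin k)} (hB2 : ¬ B2 e t π) {x y : ℕ}
    {s r : Bool} (h : Co e t π x s y r) (hshort : y ≤ x + 3) {z w : ℕ} {a b : Bool}
    (hL : LC e t π z a w b) (hz : (x ≤ z + 1 ∧ z ≤ x + 1) ∨ (y ≤ z + 1 ∧ z ≤ y + 1)) : False := by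
  have hc := win_card x s y r h.1 h.2.2.2.1
  have hxy := h.1
  rcases hL with ⟨hC, hd⟩ | ⟨hC, hd⟩
  · refine hB2 ⟨x, s, y, r, z, a, w, b, h, hC, hshort, ?_, ?_⟩
    · intro he
      have hc' := win_card z a w b hC.1 hC.2.2.2.1
      rw [← he, hc] at hc'
      omega
    · rcases hz with hz | hz
      · exact Or.inl hz
      · exact Or.inr (Or.inr (Or.inl hz))
  · refine hB2 ⟨x, s, y, r, w, b, z, a, h, hC, hshort, ?_, ?_⟩
    · intro he
      have hc' := win_card w b z a hC.1 hC.2.2.2.1
      rw [← he, hc] at hc'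
      omega
    · rcases hz with hz | hz
      · exact Or.inr (Or.inl hz)
      · exact Or.inr (Or.inr (Or.inr hz))

theorem sde_B1 {e : Fin k → G} {t : ℕ} {π : Perm (Fin k)} (hB1 : ¬ B1 e t π) {x y : ℕ}
    {s r : Bool} (h : Co e t π x s y r) : 2 ≤ x ∧ y < k := by
  have h1 : ¬ (x ≤ 1 ∨ y = k) := fun hc => hB1 ⟨x, s, y, r, h, hc⟩
  have h2 := h.2.2.1
  omega

theorem det (e : Fin k → G) (t : ℕ) (π : Perm (Fin k)) (hB1 : ¬ B1 e t π) (hB2 : ¬ B2 e t π)
    (σ : ℕ → Bool)
    (hσ : ∀ x y r, x < k + 1 → y < k + 1 → RR e t π (x, σ x) (y, r) → σ y = r) :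
    ∃ X : Finset ℕ, (∀ x ∈ X, 1 ≤ x ∧ x < k) ∧ (∀ x ∈ X, x + 1 ∉ X) ∧
      ∀ x y, x + 2 ≤ y → y ≤ x + t → y ≤ k →
        vv e π x (decide (x ∈ X)) ≠ vv e π y (decide (y ∈ X)) := by
  classical
  set X : Finset ℕ := (Ico 1 k).filter fun x =>
    (InT e t π x ∧ σ x = true) ∨ ∃ y, y ≤ x + 3 ∧ Co e t π x false y false with hX
  have hmem : ∀ x, x ∈ X ↔ (1 ≤ x ∧ x < k) ∧
      ((InT e t π x ∧ σ x = true) ∨ ∃ y, y ≤ x + 3 ∧ Co e t π x false y false) := by
    intro x
    rw [hX, mem_filter, mem_Ico]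
  refine ⟨X, fun x hx => ((hmem x).1 hx).1, fun x hx hx1 => ?_, ?_⟩
  · obtain ⟨hx0, h1⟩ := (hmem x).1 hx
    obtain ⟨hx0', h2⟩ := (hmem (x + 1)).1 hx1
    rcases h1 with ⟨hT, hs⟩ | ⟨y, hy, hC⟩
    · rcases h2 with ⟨hT', hs'⟩ | ⟨y, hy, hC⟩
      · have h3 := hσ x (x + 1) false (by omega) (by omega)
          (Or.inr ⟨hs, rfl, Or.inl rfl, hT, hT'⟩)
        rw [hs'] at h3
        exact Bool.noConfusion h3
      · obtain ⟨s, z, r, hL⟩ := hT
        exact sde_long hB2 hC hy hL (Or.inl ⟨by omega, by omega⟩)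
    · rcases h2 with ⟨hT', hs'⟩ | ⟨y', hy', hC'⟩
      · obtain ⟨s, z, r, hL⟩ := hT'
        exact sde_long hB2 hC hy hL (Or.inl ⟨by omega, by omega⟩)
      · refine hB2 ⟨x, false, y, false, x + 1, false, y', false, hC, hC', hy, ?_, ?_⟩
        · intro he
          have h3 : x ∈ win x false y false := by simp [win]
          rw [he] at h3
          have h4 := hC'.1
          simp only [win, mem_insert, mem_Ico, Bool.false_eq_true, if_false] at h3
          omega
        · exact Or.inl ⟨by omega, by omega⟩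
  · intro x y hxy hyt hyk heq
    have hCo : Co e t π x (decide (x ∈ X)) y (decide (y ∈ X)) := by
      refine ⟨hxy, hyt, hyk, fun h => ?_, fun h => ?_, heq⟩
      · exact ((hmem x).1 (of_decide_eq_true h)).1.1
      · exact ((hmem y).1 (of_decide_eq_true h)).1.2
    obtain ⟨hx2, hyk'⟩ := sde_B1 hB1 hCo
    by_cases hd : y ≤ x + 3
    · by_cases hxX : x ∈ X
      · have hdx : decide (x ∈ X) = true := decide_eq_true hxX
        rcases ((hmem x).1 hxX).2 with ⟨⟨s, z, r, hL⟩, _⟩ | ⟨y', hy', hC'⟩
        · exact sde_long hB2 hCo hd hL (Or.inl ⟨by omega, by omega⟩)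
        · refine hB2 ⟨x, _, y, _, x, false, y', false, hCo, hC', hd, ?_, ?_⟩
          · intro he
            have h3 : x ∈ win x false y' false := by simp [win]
            rw [← he, hdx] at h3
            simp only [win, mem_insert, mem_Ico, if_true] at h3
            rcases h3 with h3 | h3 | h3
            · omega
            · split_ifs at h3 <;> omega
            · omega
          · exact Or.inl ⟨by omega, by omega⟩
      · have hdx : decide (x ∈ X) = false := decide_eq_false hxX
        by_cases hyX : y ∈ X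
        · have hdy : decide (y ∈ X) = true := decide_eq_true hyX
          rcases ((hmem y).1 hyX).2 with ⟨⟨s, z, r, hL⟩, _⟩ | ⟨y', hy', hC'⟩
          · exact sde_long hB2 hCo hd hL (Or.inr ⟨by omega, by omega⟩)
          · refine hB2 ⟨x, _, y, _, y, false, y', false, hCo, hC', hd, ?_, ?_⟩
            · intro he
              have h3 : x ∈ win x (decide (x ∈ X)) y (decide (y ∈ X)) := by
                rw [hdx]
                simp [win]
              rw [he] at h3
              have h4 := hC'.1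
              simp only [win, mem_insert, mem_Ico, Bool.false_eq_true, if_false] at h3
              omega
            · exact Or.inr (Or.inr (Or.inl ⟨by omega, by omega⟩))
        · have hdy : decide (y ∈ X) = false := decide_eq_false hyX
          rw [hdx, hdy] at hCo
          exact hxX ((hmem x).2 ⟨⟨by omega, by omega⟩, Or.inr ⟨y, hd, hCo⟩⟩)
    · have hL : LC e t π x (decide (x ∈ X)) y (decide (y ∈ X)) := Or.inl ⟨hCo, by omega⟩
      have hL' : LC e t π y (decide (y ∈ X)) x (decide (x ∈ X)) := Or.inr ⟨hCo, by omega⟩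
      have hsx : decide (x ∈ X) = σ x := by
        by_cases hs : σ x = true
        · rw [hs]
          exact decide_eq_true ((hmem x).2 ⟨⟨by omega, by omega⟩, Or.inl ⟨⟨_, _, _, hL⟩, hs⟩⟩)
        · rw [Bool.not_eq_true] at hs
          rw [hs]
          refine decide_eq_false fun hxX => ?_
          rcases ((hmem x).1 hxX).2 with ⟨_, h1⟩ | ⟨y', hy', hC'⟩
          · rw [hs] at h1
            exact Bool.noConfusion h1
          · exact sde_long hB2 hC' hy' hL (Or.inl ⟨by omega, by omega⟩)
      have hsy : decide (y ∈ X) = σ y := by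
        by_cases hs : σ y = true
        · rw [hs]
          exact decide_eq_true ((hmem y).2 ⟨⟨by omega, by omega⟩, Or.inl ⟨⟨_, _, _, hL'⟩, hs⟩⟩)
        · rw [Bool.not_eq_true] at hs
          rw [hs]
          refine decide_eq_false fun hyX => ?_
          rcases ((hmem y).1 hyX).2 with ⟨_, h1⟩ | ⟨y', hy', hC'⟩
          · rw [hs] at h1
            exact Bool.noConfusion h1
          · exact sde_long hB2 hC' hy' hL' (Or.inl ⟨by omega, by omega⟩)
      have h1 := hσ x y (!σ y) (by omega) (by omega) (Or.inl (by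
        simp only [Bool.not_not]
        rw [← hsx, ← hsy]
        exact hL))
      cases hσy : σ y <;> rw [hσy] at h1 <;> exact Bool.noConfusion h1

end Pool.Agent.SEQ

-- author of this block: helper69
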