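import Pool.Agent.Lib_helper26.SEQ.Defs

/-! Block SPV: pivot bound for one partial sum. -/

namespace Pool.Agent.SEQ

open Finset Equiv Function

variable {G : Type*} [AddCommGroup G] {k : ℕ}

/-- two permutations which agree on `D ∪ Q` minus the pivot, satisfy the same equation, agree at
the pivot too -/
theorem spv_pivot_eq (e : Fin k → G) (he : Injective e) (D Q : Finset ℕ)
    (p : ℕ) (g : Perm (Fin k) → G) (hg : Dep D g)
    (hpQ : p ∈ Q) (hpD : p ∉ D) (hpk : p < k) (π π' : Perm (Fin k))
    (h1 : ∑ x ∈ Q, el e π x = g π) (h2 : ∑ x ∈ Q, el e π' x = g π')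
    (ha : ∀ x : Fin k, (x : ℕ) ∈ D ∪ Q → (x : ℕ) ≠ p → π x = π' x) :
    π ⟨p, hpk⟩ = π' ⟨p, hpk⟩ := by
  classical
  have hgg : g π = g π' := by
    apply hg
    intro x hx
    apply ha x (Finset.mem_union_left _ hx)
    rintro rfl
    exact hpD hx
  have hQ1 := Finset.add_sum_erase Q (fun x => el e π x) hpQ
  have hQ2 := Finset.add_sum_erase Q (fun x => el e π' x) hpQ
  have hrest : ∑ x ∈ Q.erase p, el e π x = ∑ x ∈ Q.erase p, el e π' x := by
    apply Finset.sum_congr rfl
    intro x hx
    rw [Finset.mem_erase] at hx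
    unfold el
    split
    · rename_i hxk
      rw [ha ⟨x, hxk⟩ (Finset.mem_union_right _ hx.2) hx.1]
    · rfl
  have hel : el e π p = el e π' p := by
    have h3 : el e π p + ∑ x ∈ Q.erase p, el e π x
        = el e π' p + ∑ x ∈ Q.erase p, el e π' x := by
      rw [hQ1, hQ2, h1, h2, hgg]
    rw [hrest] at h3
    exact add_right_cancel h3
  unfold el at hel
  rw [dif_pos hpk, dif_pos hpk] at hel
  exact he hel

/-- SPV -/
theorem pivot_sum (e : Fin k → G) (he : Injective e) (S : Perm (Fin k) → Prop)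
    (D Q : Finset ℕ)
    (p : ℕ) (g : Perm (Fin k) → G) (hS : Dep D S) (hg : Dep D g) (hD : D ⊆ range k)
    (hQ : Q ⊆ range k) (hpQ : p ∈ Q) (hpD : p ∉ D) :
    cnt (fun π => S π ∧ ∑ x ∈ Q, el e π x = g π) * (k - (D ∪ Q).card) ≤ cnt S := by
  classical
  have hpk : p < k := Finset.mem_range.1 (hQ hpQ)
  set W := D ∪ Q with hW
  have hWk : W ⊆ range k := Finset.union_subset hD hQ
  have hpW : p ∈ W := Finset.mem_union_right _ hpQ
  -- the free positions
  set T : Finset (Fin k) := univ.filter (fun t : Fin k => (t : ℕ) ∉ W) with hT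
  have hTc : T.card = k - W.card := by
    have h1 : T.map Fin.valEmbedding = range k \ W := by
      ext x
      simp only [hT, Finset.mem_map, Finset.mem_filter, Finset.mem_univ, true_and,
        Fin.valEmbedding_apply, Finset.mem_sdiff, Finset.mem_range]
      constructor
      · rintro ⟨t, ht, rfl⟩
        exact ⟨t.2, ht⟩
      · rintro ⟨hx, hxW⟩
        exact ⟨⟨x, hx⟩, hxW, rfl⟩
    rw [← Finset.card_map Fin.valEmbedding, h1, Finset.card_sdiff_of_subset hWk,
      Finset.card_range]
  set F : Finset (Perm (Fin k)) :=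
    univ.filter (fun π => S π ∧ ∑ x ∈ Q, el e π x = g π) with hF
  have hcF : cnt (fun π => S π ∧ ∑ x ∈ Q, el e π x = g π) = F.card := by
    unfold cnt
    rw [hF]
    congr!
  have hcS : cnt S = (univ.filter S).card := by
    unfold cnt
    congr!
  rw [hcF, hcS, ← hTc, ← Finset.card_product]
  apply Finset.card_le_card_of_injOn
    (fun x : Perm (Fin k) × Fin k => x.1 * Equiv.swap ⟨p, hpk⟩ x.2)
  · rintro ⟨π, t⟩ hx
    have hx' : π ∈ F ∧ t ∈ T := by simpa using hx
    obtain ⟨hπ, ht⟩ := hx'
    simp only [hF, Finset.mem_filter, Finset.mem_univ, true_and] at hπ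
    simp only [hT, Finset.mem_filter, Finset.mem_univ, true_and] at ht
    simp only [Finset.coe_filter, Finset.mem_univ, true_and, Set.mem_ofPred_eq]
    have : S (π * Equiv.swap ⟨p, hpk⟩ t) = S π := by
      apply hS
      intro x hxD
      have h1 : x ≠ ⟨p, hpk⟩ := by
        rintro rfl
        exact hpD hxD
      have h2 : x ≠ t := by
        intro h
        rw [h] at hxD
        exact ht (Finset.mem_union_left _ hxD)
      rw [Equiv.Perm.mul_apply, Equiv.swap_apply_of_ne_of_ne h1 h2]
    rw [this]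
    exact hπ.1
  · rintro ⟨π, t⟩ hx ⟨π', t'⟩ hx' heq
    have hy : π ∈ F ∧ t ∈ T := by simpa using hx
    have hy' : π' ∈ F ∧ t' ∈ T := by simpa using hx'
    obtain ⟨hπ, ht⟩ := hy
    obtain ⟨hπ', ht'⟩ := hy'
    simp only [hF, Finset.mem_filter, Finset.mem_univ, true_and] at hπ hπ'
    simp only [hT, Finset.mem_filter, Finset.mem_univ, true_and] at ht ht'
    have heq' : π * Equiv.swap ⟨p, hpk⟩ t = π' * Equiv.swap ⟨p, hpk⟩ t' := heq
    have hag : ∀ x : Fin k, (x : ℕ) ∈ D ∪ Q → (x : ℕ) ≠ p → π x = π' x := by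
      intro x hxW hxp
      have h1 : x ≠ ⟨p, hpk⟩ := by
        rintro rfl
        exact hxp rfl
      have h2 : x ≠ t := by
        intro h
        rw [h] at hxW
        exact ht hxW
      have h3 : x ≠ t' := by
        intro h
        rw [h] at hxW
        exact ht' hxW
      have h4 := congrArg (fun ρ : Perm (Fin k) => ρ x) heq'
      simpa [Equiv.Perm.mul_apply, Equiv.swap_apply_of_ne_of_ne h1 h2,
        Equiv.swap_apply_of_ne_of_ne h1 h3] using h4
    have hpp := spv_pivot_eq e he D Q p g hg hpQ hpD hpk π π' hπ.2 hπ'.2 hag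
    -- the values at t
    have htt : t = t' := by
      have h4 := congrArg (fun ρ : Perm (Fin k) => ρ t) heq'
      simp only [Equiv.Perm.mul_apply, Equiv.swap_apply_right] at h4
      -- π p = π' (swap p t' t)
      rw [hpp] at h4
      have h5 := π'.injective h4
      have h6 := congrArg (Equiv.swap (⟨p, hpk⟩ : Fin k) t') h5
      rw [Equiv.swap_apply_left, Equiv.swap_apply_self] at h6
      exact h6.symm
    subst htt
    have := mul_right_cancel heq'
    rw [this]

end Pool.Agent.SEQ

-- author of this block: helper82
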