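import Pool.Agent.Lib_helper26.SEQ.Defs
import Pool.Agent.Lib_helper26.SEQ.WSPV

/-! Block SPA (parts_bound) of the call SEQ. -/

namespace Pool.Agent.SEQ

open Finset Equiv Function

variable {G : Type*} [AddCommGroup G] {k : ℕ}

theorem spa_pow (n : ℕ) : (n + 2) ^ (n + 1) ≤ 3 * (n + 1) ^ (n + 1) := by
  have hpos : (0 : ℝ) < (n : ℝ) + 1 := by positivity
  have h1 : (1 : ℝ) + 1 / ((n : ℝ) + 1) ≤ Real.exp (1 / ((n : ℝ) + 1)) := by
    have := Real.add_one_le_exp (1 / ((n : ℝ) + 1))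
    linarith
  have h2 : ((1 : ℝ) + 1 / ((n : ℝ) + 1)) ^ (n + 1) ≤ Real.exp 1 := by
    calc ((1 : ℝ) + 1 / ((n : ℝ) + 1)) ^ (n + 1) ≤ (Real.exp (1 / ((n : ℝ) + 1))) ^ (n + 1) := by
          apply pow_le_pow_left₀ _ h1
          positivity
      _ = Real.exp (((n + 1 : ℕ) : ℝ) * (1 / ((n : ℝ) + 1))) := by
          rw [← Real.exp_nat_mul]
      _ = Real.exp 1 := by
          congr 1
          push_cast
          field_simp
  have h3 : Real.exp 1 ≤ 3 := by
    have := Real.exp_one_lt_d9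
    linarith
  have h4 : (((n : ℝ) + 2)) ^ (n + 1) ≤ 3 * ((n : ℝ) + 1) ^ (n + 1) := by
    have h5 : ((n : ℝ) + 2) = ((1 : ℝ) + 1 / ((n : ℝ) + 1)) * ((n : ℝ) + 1) := by
      field_simp
      ring
    rw [h5, mul_pow]
    apply mul_le_mul_of_nonneg_right (h2.trans h3)
    positivity
  exact_mod_cast h4

theorem spa_num (n : ℕ) : (n + 1) ^ n ≤ 3 ^ n * n.factorial := by
  induction n with
  | zero => simp
  | succ n ih =>
    have h := spa_pow n
    calc (n + 1 + 1) ^ (n + 1) = (n + 2) ^ (n + 1) := by ring_nf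
      _ ≤ 3 * (n + 1) ^ (n + 1) := h
      _ = 3 * (n + 1) * (n + 1) ^ n := by ring
      _ ≤ 3 * (n + 1) * (3 ^ n * n.factorial) := Nat.mul_le_mul_left _ ih
      _ = 3 ^ (n + 1) * (n + 1).factorial := by
          rw [Nat.factorial_succ]
          ring

theorem spa_main (e : Fin k → G) (he : Injective e) (P : ℕ → Finset ℕ)
    (g : ℕ → Perm (Fin k) → G) : ∀ (m : ℕ) (J D : Finset ℕ) (S : Perm (Fin k) → Prop),
    J.card = m + 1 → Dep D S → (∀ i ∈ J, Dep D (g i)) → (∀ i ∈ J, (P i).Nonempty) →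
    (∀ i ∈ J, P i ⊆ range k) → (∀ i ∈ J, Disjoint (P i) D) →
    (∀ i ∈ J, ∀ j ∈ J, i ≠ j → Disjoint (P i) (P j)) → D ⊆ range k →
    (∑ i ∈ J, (P i).card + D.card = k) →
    cnt (fun π => S π ∧ ∀ i ∈ J, ∑ x ∈ P i, el e π x = g i π) *
      (m.factorial * (k - D.card) ^ m) ≤ cnt S * (m + 1) ^ m := by
  intro m
  induction m with
  | zero =>
    intro J D S _ _ _ _ _ _ _ _ _
    simp only [Nat.factorial_zero, pow_zero, mul_one]
    exact cnt_mono fun π h => h.1
  | succ m ih =>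
    intro J D S hJ hS hg hne hPk hPD hPP hD hcov
    have hJne : J.Nonempty := by
      rw [← Finset.card_pos]; omega
    obtain ⟨i0, hi0, hmin⟩ := Finset.exists_min_image J (fun i => (P i).card) hJne
    obtain ⟨p, hp⟩ := hne i0 hi0
    have hcard : (D ∪ P i0).card = D.card + (P i0).card :=
      Finset.card_union_of_disjoint (hPD i0 hi0).symm
    have hDD : D ⊆ D ∪ P i0 := Finset.subset_union_left
    have hPDD : P i0 ⊆ D ∪ P i0 := Finset.subset_union_right
    have hsub : ∀ i ∈ J.erase i0, i ∈ J := fun i hi => Finset.mem_of_mem_erase hi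
    have hS' : Dep (D ∪ P i0) (fun π => S π ∧ ∑ x ∈ P i0, el e π x = g i0 π) :=
      (hS.mono hDD).map₂ ((dep_sum_el e hPDD).map₂ ((hg i0 hi0).mono hDD) (fun a b => a = b))
        (fun a b => a ∧ b)
    have hsum : (P i0).card + ∑ i ∈ J.erase i0, (P i).card = ∑ i ∈ J, (P i).card :=
      Finset.add_sum_erase J (fun i => (P i).card) hi0
    have h1 := ih (J.erase i0) (D ∪ P i0) (fun π => S π ∧ ∑ x ∈ P i0, el e π x = g i0 π)
      (by rw [Finset.card_erase_of_mem hi0, hJ]; omega) hS'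
      (fun i hi => (hg i (hsub i hi)).mono hDD) (fun i hi => hne i (hsub i hi))
      (fun i hi => hPk i (hsub i hi))
      (fun i hi => by
        rw [Finset.disjoint_union_right]
        exact ⟨hPD i (hsub i hi), hPP i (hsub i hi) i0 hi0 (Finset.ne_of_mem_erase hi)⟩)
      (fun i hi j hj hij => hPP i (hsub i hi) j (hsub j hj) hij)
      (Finset.union_subset hD (hPk i0 hi0))
      (by rw [hcard]; omega)
    have h2 := pivot_sum e he S D (P i0) p (g i0) hS (hg i0 hi0) hD (hPk i0 hi0) hp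
      (fun hpD => (Finset.disjoint_left.mp (hPD i0 hi0)) hp hpD)
    have h0 : cnt (fun π => S π ∧ ∀ i ∈ J, ∑ x ∈ P i, el e π x = g i π) ≤
        cnt (fun π => (S π ∧ ∑ x ∈ P i0, el e π x = g i0 π) ∧
          ∀ i ∈ J.erase i0, ∑ x ∈ P i, el e π x = g i π) :=
      cnt_mono fun π h => ⟨⟨h.1, h.2 i0 hi0⟩, fun i hi => h.2 i (hsub i hi)⟩
    have hbig : (m + 2) * (P i0).card ≤ ∑ i ∈ J, (P i).card := by
      have := Finset.card_nsmul_le_sum J (fun i => (P i).card) (P i0).card (fun i hi => hmin i hi)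
      rw [hJ, smul_eq_mul] at this
      exact this
    set c := cnt (fun π => S π ∧ ∀ i ∈ J, ∑ x ∈ P i, el e π x = g i π)
    set c1 := cnt (fun π => (S π ∧ ∑ x ∈ P i0, el e π x = g i0 π) ∧
          ∀ i ∈ J.erase i0, ∑ x ∈ P i, el e π x = g i π)
    set c' := cnt (fun π => S π ∧ ∑ x ∈ P i0, el e π x = g i0 π)
    set s := cnt S
    set L := k - D.card with hL
    set L' := k - (D ∪ P i0).card with hL'
    have hLL : (m + 1) * L ≤ (m + 2) * L' := by
      have e1 : L = ∑ i ∈ J, (P i).card := by omega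
      have e2 : L' = L - (P i0).card := by omega
      have e3 : (P i0).card ≤ L := by
        calc (P i0).card ≤ (m + 2) * (P i0).card := Nat.le_mul_of_pos_left _ (by omega)
          _ ≤ L := by rw [e1]; exact hbig
      obtain ⟨d, hd⟩ := Nat.exists_eq_add_of_le e3
      have e4 : L' = d := by omega
      rw [e4]
      rw [e1.symm] at hbig
      rw [hd] at hbig ⊢
      nlinarith
    have h3 : c * (m.factorial * L' ^ m) ≤ c' * (m + 1) ^ m :=
      (Nat.mul_le_mul_right _ h0).trans h1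
    have hpos : 0 < (m + 1) ^ (m + 1) := by positivity
    refine Nat.le_of_mul_le_mul_right ?_ hpos
    calc c * ((m + 1).factorial * L ^ (m + 1)) * (m + 1) ^ (m + 1)
        = c * (m + 1).factorial * ((m + 1) * L) ^ (m + 1) := by rw [mul_pow]; ring
      _ ≤ c * (m + 1).factorial * ((m + 2) * L') ^ (m + 1) :=
          Nat.mul_le_mul_left _ (Nat.pow_le_pow_left hLL _)
      _ = (m + 2) ^ (m + 1) * (m + 1) * L' * (c * (m.factorial * L' ^ m)) := by
          rw [Nat.factorial_succ, mul_pow]; ring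
      _ ≤ (m + 2) ^ (m + 1) * (m + 1) * L' * (c' * (m + 1) ^ m) := Nat.mul_le_mul_left _ h3
      _ = (m + 2) ^ (m + 1) * (m + 1) ^ (m + 1) * (c' * L') := by ring
      _ ≤ (m + 2) ^ (m + 1) * (m + 1) ^ (m + 1) * s := Nat.mul_le_mul_left _ h2
      _ = s * (m + 1 + 1) ^ (m + 1) * (m + 1) ^ (m + 1) := by ring

/-- SPA -/
theorem parts_bound (e : Fin k → G) (he : Injective e) (J : Finset ℕ) (P : ℕ → Finset ℕ)
    (g : ℕ → Perm (Fin k) → G) (D : Finset ℕ) (S : Perm (Fin k) → Prop) (hJ : J.Nonempty)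
    (hS : Dep D S) (hg : ∀ i ∈ J, Dep D (g i)) (hne : ∀ i ∈ J, (P i).Nonempty)
    (hPk : ∀ i ∈ J, P i ⊆ range k) (hPD : ∀ i ∈ J, Disjoint (P i) D)
    (hPP : ∀ i ∈ J, ∀ j ∈ J, i ≠ j → Disjoint (P i) (P j)) (hD : D ⊆ range k)
    (hcov : ∑ i ∈ J, (P i).card + D.card = k) :
    cnt (fun π => S π ∧ ∀ i ∈ J, ∑ x ∈ P i, el e π x = g i π) * (k - D.card) ^ (J.card - 1) ≤
      cnt S * 3 ^ (J.card - 1) := by
  obtain ⟨m, hm⟩ : ∃ m, J.card = m + 1 :=
    ⟨J.card - 1, by have := Finset.card_pos.mpr hJ; omega⟩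
  have h := spa_main e he P g m J D S hm hS hg hne hPk hPD hPP hD hcov
  have hJ1 : J.card - 1 = m := by omega
  rw [hJ1]
  refine Nat.le_of_mul_le_mul_right ?_ (Nat.factorial_pos m)
  calc cnt (fun π => S π ∧ ∀ i ∈ J, ∑ x ∈ P i, el e π x = g i π) * (k - D.card) ^ m * m.factorial
      = cnt (fun π => S π ∧ ∀ i ∈ J, ∑ x ∈ P i, el e π x = g i π) *
        (m.factorial * (k - D.card) ^ m) := by ring
    _ ≤ cnt S * (m + 1) ^ m := h
    _ ≤ cnt S * (3 ^ m * m.factorial) := Nat.mul_le_mul_left _ (spa_num m)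
    _ = cnt S * 3 ^ m * m.factorial := by ring

end Pool.Agent.SEQ

example : type_of% (@Pool.Agent.SEQ.parts_bound.{0}) = type_of% (@Pool.Agent.SEQ.parts_bound.{0}) := rfl

-- author of this block: helper65
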