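import Pool.Agent.Lib_helper26.SEQ.Defs
import Pool.Agent.Lib_helper26.SEQ.WSPA

/-! Block SZS (MP_b4ec45_co, linear range): `zones_sorted`. -/

namespace Pool.Agent.SEQ

open Finset Equiv Function

variable {G : Type*} [AddCommGroup G] {k : ℕ}

/-- the complementary parts -/
def szsP (M k : ℕ) (l r : ℕ → ℕ) (i : ℕ) : Finset ℕ :=
  if i < M then Ico (r i) (l (i + 1)) else Ico (r M) k ∪ range (l 0)

theorem szs_tele (l r : ℕ → ℕ) (M : ℕ) (hlr : ∀ i < M + 1, l i < r i)
    (hrl : ∀ i, i + 1 < M + 1 → r i < l (i + 1)) (n : ℕ) (hn : n ≤ M) :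
    ∑ i ∈ range n, (l (i + 1) - r i) + ∑ i ∈ range (n + 1), (r i - l i) + l 0 = r n := by
  induction n with
  | zero =>
    have := hlr 0 (by omega)
    simp
    omega
  | succ n ih =>
    have h1 := ih (by omega)
    rw [Finset.sum_range_succ, Finset.sum_range_succ (n := n + 1)]
    have h2 := hlr (n + 1) (by omega)
    have h3 := hrl n (by omega)
    omega

theorem zones_sorted (e : Fin k → G) (he : Injective e) (m : ℕ) (l r : ℕ → ℕ)
    (Ψ : ℕ → Perm (Fin k) → G) (S : Perm (Fin k) → Prop) (I : Finset ℕ) (hm : 1 ≤ m)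
    (hI : I = (range m).biUnion fun i => Ico (l i) (r i)) (h0 : 1 ≤ l 0)
    (hlr : ∀ i < m, l i < r i) (hrl : ∀ i, i + 1 < m → r i < l (i + 1)) (hrk : r (m - 1) ≤ k)
    (hS : Dep I S) (hΨ : ∀ i < m, Dep I (Ψ i)) :
    cnt (fun π => S π ∧ ∀ i < m, ∀ j < m, ps e π (l i) - ps e π (l j) = Ψ i π - Ψ j π) *
      (k - I.card) ^ (m - 1) ≤ cnt S * 3 ^ (m - 1) := by
  classical
  obtain ⟨M, rfl⟩ : ∃ M, m = M + 1 := ⟨m - 1, by omega⟩
  rw [Nat.add_sub_cancel] at hrk ⊢
  -- monotonicity
  have hlt : ∀ j, j < M + 1 → ∀ i < j, r i < l j := by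
    intro j
    induction j with
    | zero => intro _ i hi; omega
    | succ j ih =>
      intro hj i hi
      rcases Nat.lt_or_ge i j with h | h
      · have h1 := ih (by omega) i h
        have h2 := hlr j (by omega)
        have h3 := hrl j hj
        omega
      · have h1 : i = j := by omega
        subst h1
        exact hrl i hj
  have hl : ∀ i j, i ≤ j → j < M + 1 → l i ≤ l j := by
    intro i j hij hj
    rcases Nat.lt_or_ge i j with h | h
    · have h1 := hlt j hj i h
      have h2 := hlr i (by omega)
      omega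
    · have : i = j := by omega
      rw [this]
  have hr : ∀ i j, i ≤ j → j < M + 1 → r i ≤ r j := by
    intro i j hij hj
    rcases Nat.lt_or_ge i j with h | h
    · have h1 := hlt j hj i h
      have h2 := hlr j hj
      omega
    · have : i = j := by omega
      rw [this]
  have hmemI : ∀ x, x ∈ I ↔ ∃ j, j < M + 1 ∧ l j ≤ x ∧ x < r j := by
    intro x
    rw [hI, Finset.mem_biUnion]
    simp only [Finset.mem_range, Finset.mem_Ico]
  have hmem1 : ∀ i, i < M → ∀ x, x ∈ szsP M k l r i ↔ r i ≤ x ∧ x < l (i + 1) := by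
    intro i hi x
    rw [szsP, if_pos hi, Finset.mem_Ico]
  have hmem2 : ∀ x, x ∈ szsP M k l r M ↔ (r M ≤ x ∧ x < k) ∨ x < l 0 := by
    intro x
    rw [szsP, if_neg (lt_irrefl M), Finset.mem_union, Finset.mem_Ico, Finset.mem_range]
  have hDk : I ⊆ range k := by
    intro x hx
    obtain ⟨j, hj, _, h2⟩ := (hmemI x).1 hx
    have := hr j M (by omega) (by omega)
    rw [Finset.mem_range]
    omega
  have hPk : ∀ i ∈ range (M + 1), szsP M k l r i ⊆ range k := by
    intro i hi x hx
    rw [Finset.mem_range] at hi ⊢
    rcases Nat.lt_or_ge i M with h | h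
    · have h1 := (hmem1 i h x).1 hx
      have h2 := hlr (i + 1) (by omega)
      have h3 := hr (i + 1) M (by omega) (by omega)
      omega
    · have : i = M := by omega
      subst this
      rcases (hmem2 x).1 hx with h1 | h1
      · exact h1.2
      · have h2 := hlr 0 (by omega)
        have h3 := hr 0 i (by omega) (by omega)
        omega
  have hPD : ∀ i ∈ range (M + 1), Disjoint (szsP M k l r i) I := by
    intro i hi
    rw [Finset.mem_range] at hi
    rw [Finset.disjoint_left]
    intro x hx hxI
    obtain ⟨j, hj, h1, h2⟩ := (hmemI x).1 hxI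
    rcases Nat.lt_or_ge i M with h | h
    · have h3 := (hmem1 i h x).1 hx
      rcases Nat.lt_or_ge i j with h4 | h4
      · have := hl (i + 1) j (by omega) hj
        omega
      · have := hr j i h4 (by omega)
        omega
    · have : i = M := by omega
      subst this
      have h4 := hr j i (by omega) (by omega)
      have h5 := hl 0 j (by omega) hj
      rcases (hmem2 x).1 hx with h3 | h3
      · omega
      · omega
  have hPPlt : ∀ i j, i < j → j < M + 1 → Disjoint (szsP M k l r i) (szsP M k l r j) := by
    intro i j hij hj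
    rw [Finset.disjoint_left]
    intro x hx hxj
    have h1 := (hmem1 i (by omega) x).1 hx
    have h2 := hl (i + 1) j (by omega) hj
    have h3 := hlr j hj
    rcases Nat.lt_or_ge j M with h | h
    · have h4 := (hmem1 j h x).1 hxj
      omega
    · have : j = M := by omega
      subst this
      have h5 := hl 0 i (by omega) (by omega)
      have h6 := hlr i (by omega)
      rcases (hmem2 x).1 hxj with h4 | h4
      · omega
      · omega
  have hPP : ∀ i ∈ range (M + 1), ∀ j ∈ range (M + 1), i ≠ j →
      Disjoint (szsP M k l r i) (szsP M k l r j) := by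
    intro i hi j hj hij
    rw [Finset.mem_range] at hi hj
    rcases Nat.lt_or_gt_of_ne hij with h | h
    · exact hPPlt i j h hj
    · exact (hPPlt j i h hi).symm
  have hdisj2 : Disjoint (Ico (r M) k) (range (l 0)) := by
    rw [Finset.disjoint_left]
    intro x hx hx2
    rw [Finset.mem_Ico] at hx
    rw [Finset.mem_range] at hx2
    have h2 := hlr 0 (by omega)
    have h3 := hr 0 M (by omega) (by omega)
    omega
  have hcov : ∑ i ∈ range (M + 1), (szsP M k l r i).card + I.card = k := by
    have hIc : I.card = ∑ i ∈ range (M + 1), (r i - l i) := by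
      rw [hI, Finset.card_biUnion]
      · exact Finset.sum_congr rfl fun i _ => Nat.card_Ico _ _
      · intro i hi j hj hij
        rw [Finset.mem_coe, Finset.mem_range] at hi hj
        show Disjoint (Ico (l i) (r i)) (Ico (l j) (r j))
        rw [Finset.disjoint_left]
        intro x hx hx2
        rw [Finset.mem_Ico] at hx hx2
        rcases Nat.lt_or_gt_of_ne hij with h | h
        · have := hlt j hj i h
          omega
        · have := hlt i hi j h
          omega
    have hPc : ∑ i ∈ range (M + 1), (szsP M k l r i).card =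
        ∑ i ∈ range M, (l (i + 1) - r i) + ((k - r M) + l 0) := by
      rw [Finset.sum_range_succ]
      congr 1
      · refine Finset.sum_congr rfl fun i hi => ?_
        rw [Finset.mem_range] at hi
        rw [szsP, if_pos hi, Nat.card_Ico]
      · rw [szsP, if_neg (lt_irrefl M), Finset.card_union_of_disjoint hdisj2, Nat.card_Ico,
          Finset.card_range]
    have ht := szs_tele l r M hlr hrl M le_rfl
    rw [hPc, hIc]
    omega
  have hmain := parts_bound e he (range (M + 1)) (szsP M k l r)
    (fun i π => if i < M then Ψ (i + 1) π - Ψ i π - ∑ x ∈ Ico (l i) (r i), el e π x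
      else (∑ x, e x) - ∑ x ∈ Ico (l M) (r M), el e π x - (Ψ M π - Ψ 0 π)) I S
    ⟨0, by simp⟩ hS ?_ ?_ hPk hPD hPP hDk hcov
  · rw [Finset.card_range, Nat.add_sub_cancel] at hmain
    refine le_trans (Nat.mul_le_mul_right _ (cnt_mono fun π hπ => ?_)) hmain
    obtain ⟨hSπ, hE⟩ := hπ
    refine ⟨hSπ, fun i hi => ?_⟩
    rw [Finset.mem_range] at hi
    rcases Nat.lt_or_ge i M with h | h
    · simp only [h, if_true]
      have h1 := hE (i + 1) (by omega) i (by omega)
      have h2 := ps_eq_add e π (hlr i hi).le
      have h3 := ps_eq_add e π (hrl i (by omega)).le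
      rw [← h1, szsP, if_pos h, h3, h2]
      abel
    · have h4 : i = M := by omega
      subst h4
      simp only [lt_irrefl, if_false]
      have h1 := hE i (by omega) 0 (by omega)
      have h2 := ps_eq_add e π (hlr i hi).le
      have h3 := ps_eq_add e π hrk
      rw [ps_total] at h3
      rw [← h1, szsP, if_neg (lt_irrefl i), Finset.sum_union hdisj2, h3, h2]
      unfold ps
      abel
  · intro i hi
    rw [Finset.mem_range] at hi
    have hsub : ∀ j < M + 1, Ico (l j) (r j) ⊆ I := by
      intro j hj x hx
      rw [Finset.mem_Ico] at hx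
      exact (hmemI x).2 ⟨j, hj, hx⟩
    rcases Nat.lt_or_ge i M with h | h
    · simp only [h, if_true]
      exact ((hΨ (i + 1) (by omega)).map₂ (hΨ i (by omega)) (· - ·)).map₂
        (dep_sum_el e (hsub i hi)) (· - ·)
    · have h4 : ¬ i < M := by omega
      simp only [h4, if_false]
      exact ((dep_const I _).map₂ (dep_sum_el e (hsub M (by omega))) (· - ·)).map₂
        ((hΨ M (by omega)).map₂ (hΨ 0 (by omega)) (· - ·)) (· - ·)
  · intro i hi
    rw [Finset.mem_range] at hi
    rcases Nat.lt_or_ge i M with h | h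
    · exact ⟨r i, (hmem1 i h _).2 ⟨le_rfl, hrl i (by omega)⟩⟩
    · have h4 : i = M := by omega
      subst h4
      exact ⟨0, (hmem2 0).2 (Or.inr (by omega))⟩

end Pool.Agent.SEQ

-- author of this block: helper38
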