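import Pool.Agent.Lib_helper26.SEQ.Defs
import Pool.Agent.Lib_helper26.SEQ.WSZS

/-! Block SZU (helper37): the zones bound, unsorted version. -/

namespace Pool.Agent.SEQ

open Finset Equiv Function

variable {G : Type*} [AddCommGroup G] {k : ℕ}

/-- reindexed sequence -/
def szu_re {β : Type*} (m : ℕ) (σ : Perm (Fin m)) (f : ℕ → β) (i : ℕ) : β :=
  if h : i < m then f (σ ⟨i, h⟩) else f i

theorem szu_re_lt {β : Type*} {m : ℕ} (σ : Perm (Fin m)) (f : ℕ → β) {i : ℕ} (h : i < m) :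
    szu_re m σ f i = f (σ ⟨i, h⟩) := by
  unfold szu_re
  rw [dif_pos h]

theorem zones_bound (e : Fin k → G) (he : Injective e) (m : ℕ) (l r : ℕ → ℕ)
    (Ψ : ℕ → Perm (Fin k) → G) (S : Perm (Fin k) → Prop) (I : Finset ℕ) (hm : 1 ≤ m)
    (hI : I = (range m).biUnion fun i => Ico (l i) (r i)) (h0 : ∀ i < m, 1 ≤ l i)
    (hlr : ∀ i < m, l i < r i) (hsep : ∀ i < m, ∀ j < m, i ≠ j → r i < l j ∨ r j < l i)
    (hrk : ∀ i < m, r i ≤ k) (hS : Dep I S) (hΨ : ∀ i < m, Dep I (Ψ i)) :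
    cnt (fun π => S π ∧ ∀ i < m, ∀ j < m, ps e π (l i) - ps e π (l j) = Ψ i π - Ψ j π) *
      (k - I.card) ^ (m - 1) ≤ cnt S * 3 ^ (m - 1) := by
  set σ : Perm (Fin m) := Tuple.sort (fun i : Fin m => l i) with hσ
  have hmono : Monotone ((fun i : Fin m => l i) ∘ σ) := Tuple.monotone_sort _
  have hI' : I = (range m).biUnion fun i => Ico (szu_re m σ l i) (szu_re m σ r i) := by
    rw [hI]
    ext x
    simp only [Finset.mem_biUnion, Finset.mem_range]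
    constructor
    · rintro ⟨i, hi, hx⟩
      refine ⟨(σ.symm ⟨i, hi⟩ : Fin m), (σ.symm ⟨i, hi⟩).2, ?_⟩
      rw [szu_re_lt σ l (σ.symm ⟨i, hi⟩).2, szu_re_lt σ r (σ.symm ⟨i, hi⟩).2]
      simpa using hx
    · rintro ⟨i, hi, hx⟩
      rw [szu_re_lt σ l hi, szu_re_lt σ r hi] at hx
      exact ⟨(σ ⟨i, hi⟩ : Fin m), (σ ⟨i, hi⟩).2, hx⟩
  have key := zones_sorted e he m (szu_re m σ l) (szu_re m σ r) (szu_re m σ Ψ) S I hm hI'
    (by
      rw [szu_re_lt σ l (by omega : 0 < m)]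
      exact h0 _ (σ ⟨0, by omega⟩).2)
    (by
      intro i hi
      rw [szu_re_lt σ l hi, szu_re_lt σ r hi]
      exact hlr _ (σ ⟨i, hi⟩).2)
    (by
      intro i hi
      have hi' : i < m := by omega
      rw [szu_re_lt σ l hi, szu_re_lt σ r hi']
      have hne : ((σ ⟨i, hi'⟩ : Fin m) : ℕ) ≠ ((σ ⟨i + 1, hi⟩ : Fin m) : ℕ) := by
        intro h
        have h1 : (⟨i, hi'⟩ : Fin m) = ⟨i + 1, hi⟩ := σ.injective (Fin.ext h)
        have h2 := congrArg Fin.val h1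
        simp at h2
      have hle : l (σ ⟨i, hi'⟩ : Fin m) ≤ l (σ ⟨i + 1, hi⟩ : Fin m) :=
        hmono (a := ⟨i, hi'⟩) (b := ⟨i + 1, hi⟩) (by simp [Fin.le_def])
      rcases hsep _ (σ ⟨i, hi'⟩).2 _ (σ ⟨i + 1, hi⟩).2 hne with h | h
      · exact h
      · have h3 := hlr _ (σ ⟨i + 1, hi⟩).2
        omega)
    (by
      have h1 : m - 1 < m := by omega
      rw [szu_re_lt σ r h1]
      exact hrk _ (σ ⟨m - 1, h1⟩).2)
    hS
    (by
      intro i hi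
      rw [szu_re_lt σ Ψ hi]
      exact hΨ _ (σ ⟨i, hi⟩).2)
  refine le_trans (Nat.mul_le_mul_right _ (cnt_mono ?_)) key
  rintro π ⟨h1, h2⟩
  refine ⟨h1, ?_⟩
  intro i hi j hj
  rw [szu_re_lt σ l hi, szu_re_lt σ l hj, szu_re_lt σ Ψ hi, szu_re_lt σ Ψ hj]
  exact h2 _ (σ ⟨i, hi⟩).2 _ (σ ⟨j, hj⟩).2

end Pool.Agent.SEQ

-- author of this block: helper37
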