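import Pool.Agent.Lib_helper26.SEQ.Defs
import Pool.Agent.Lib_helper26.SEQ.WSZU

/-! Block SFB: probability of a chain with pairwise far stops. -/

namespace Pool.Agent.SEQ

open Finset Equiv Function

variable {G : Type*} [AddCommGroup G] {k : ℕ}

/-- the accumulated offsets of a chain -/
def sfb_off (e : Fin k → G) (q : ℕ → ℕ) (τ : ℕ → Fin 4) (i : ℕ) (π : Perm (Fin k)) : G :=
  ∑ j ∈ range i, (uu e π (τ j) (q j) - ww e π (τ (j + 1)) (q (j + 1)))

theorem sfb_chain (e : Fin k → G) (π : Perm (Fin k)) (n : ℕ) (q : ℕ → ℕ) (τ : ℕ → Fin 4)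
    (h : Chain e π n q τ) : ∀ i, i ≤ n →
    ps e π (q i - 1) = ps e π (q 0 - 1) + sfb_off e q τ i π := by
  intro i
  induction i with
  | zero =>
    intro _
    simp [sfb_off]
  | succ i ih =>
    intro hi
    have h1 := ih (by omega)
    have h2 := h i (by omega)
    unfold sfb_off at h1 ⊢
    rw [Finset.sum_range_succ, ← add_assoc, ← h1]
    have h3 : ps e π (q (i + 1) - 1) =
        (ps e π (q (i + 1) - 1) + ww e π (τ (i + 1)) (q (i + 1)))
          - ww e π (τ (i + 1)) (q (i + 1)) := by abel
    rw [h3, ← h2]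
    abel

theorem sfb_dep (e : Fin k → G) (q : ℕ → ℕ) (τ : ℕ → Fin 4) (I : Finset ℕ) (n : ℕ)
    (hI : ∀ i ≤ n, q i - 1 ∈ I ∧ q i ∈ I) (i : ℕ) (hi : i ≤ n) :
    Dep I (sfb_off (k := k) e q τ i) := by
  intro π π' ha
  unfold sfb_off
  apply Finset.sum_congr rfl
  intro j hj
  rw [Finset.mem_range] at hj
  have h1 := dep_uu e (τ j) (hI j (by omega)).1 (hI j (by omega)).2 π π' ha
  have h2 := dep_ww e (τ (j + 1)) (hI (j + 1) (by omega)).1 (hI (j + 1) (by omega)).2 π π' ha
  simp only at h1 h2
  rw [h1, h2]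

/-- SFB -/
theorem far_bound (e : Fin k → G) (he : Injective e) (n : ℕ) (q : ℕ → ℕ) (τ : ℕ → Fin 4)
    (hq : ∀ i ≤ n, 2 ≤ q i ∧ q i < k)
    (hfar : ∀ i j, i < j → j ≤ n → q i + 3 ≤ q j ∨ q j + 3 ≤ q i) :
    cnt (fun π => Chain e π n q τ) * (k - 2 * (n + 1)) ^ n ≤ k.factorial * 3 ^ n := by
  classical
  set I : Finset ℕ := (range (n + 1)).biUnion fun i => Ico (q i - 1) (q i + 1) with hIdef
  have hmem : ∀ i ≤ n, q i - 1 ∈ I ∧ q i ∈ I := by
    intro i hi
    have h2 := (hq i hi).1
    constructor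
    · rw [hIdef, Finset.mem_biUnion]
      exact ⟨i, Finset.mem_range.2 (by omega), Finset.mem_Ico.2 ⟨le_refl _, by omega⟩⟩
    · rw [hIdef, Finset.mem_biUnion]
      exact ⟨i, Finset.mem_range.2 (by omega), Finset.mem_Ico.2 ⟨by omega, by omega⟩⟩
  have hcard : I.card ≤ 2 * (n + 1) := by
    calc I.card ≤ ∑ i ∈ range (n + 1), (Ico (q i - 1) (q i + 1)).card :=
          Finset.card_biUnion_le
      _ ≤ ∑ i ∈ range (n + 1), 2 := by
          apply Finset.sum_le_sum
          intro i hi
          rw [Nat.card_Ico]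
          omega
      _ = 2 * (n + 1) := by rw [Finset.sum_const, Finset.card_range, smul_eq_mul, mul_comm]
  have key := zones_bound e he (n + 1) (fun i => q i - 1) (fun i => q i + 1)
    (fun i => sfb_off e q τ i) (fun _ => True) I (by omega) hIdef
    (by
      intro i hi
      have := (hq i (by omega)).1
      show 1 ≤ q i - 1
      omega)
    (by
      intro i hi
      show q i - 1 < q i + 1
      omega)
    (by
      intro i hi j hj hij
      show q i + 1 < q j - 1 ∨ q j + 1 < q i - 1
      rcases Nat.lt_or_gt_of_ne hij with h | h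
      · rcases hfar i j h (by omega) with h' | h'
        · left; omega
        · right; omega
      · rcases hfar j i h (by omega) with h' | h'
        · right; omega
        · left; omega)
    (by
      intro i hi
      have := (hq i (by omega)).2
      show q i + 1 ≤ k
      omega)
    (dep_const I True)
    (by
      intro i hi
      exact sfb_dep e q τ I n hmem i (by omega))
  rw [Nat.add_sub_cancel, cnt_true] at key
  refine le_trans (Nat.mul_le_mul ?_ ?_) key
  · apply cnt_mono
    intro π hπ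
    refine ⟨trivial, ?_⟩
    intro i hi j hj
    have h1 := sfb_chain e π n q τ hπ i (by omega)
    have h2 := sfb_chain e π n q τ hπ j (by omega)
    show ps e π (q i - 1) - ps e π (q j - 1) = sfb_off e q τ i π - sfb_off e q τ j π
    rw [h1, h2]
    abel
  · exact Nat.pow_le_pow_left (Nat.sub_le_sub_left hcard k) n

end Pool.Agent.SEQ

-- author of this block: helper82
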