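import Pool.Agent.Lib_helper26.SEQ.Defs
import Pool.Agent.Lib_helper26.SEQ.WSZU
import Pool.Agent.Lib_helper26.SEQ.WSPV

/-! Block SNB: near-cycles. -/

namespace Pool.Agent.SEQ

open Finset Equiv Function

variable {G : Type*} [AddCommGroup G] {k : ℕ}

/-- the sum of the jumps `0, ..., i-1` -/
def snbC (e : Fin k → G) (q : ℕ → ℕ) (τ : ℕ → Fin 4) (i : ℕ) (π : Perm (Fin k)) : G :=
  ∑ j ∈ range i, (uu e π (τ j) (q j) - ww e π (τ (j + 1)) (q (j + 1)))

theorem snb_chain {e : Fin k → G} {π : Perm (Fin k)} {n : ℕ} {q : ℕ → ℕ} {τ : ℕ → Fin 4}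
    (h : Chain e π n q τ) : ∀ i ≤ n, ps e π (q i - 1) = ps e π (q 0 - 1) + snbC e q τ i π := by
  intro i
  induction i with
  | zero => intro _; simp [snbC]
  | succ i ih =>
    intro hi
    have h1 := ih (by omega)
    have h2 := h i (by omega)
    have h3 : snbC e q τ (i + 1) π = snbC e q τ i π +
        (uu e π (τ i) (q i) - ww e π (τ (i + 1)) (q (i + 1))) := by
      unfold snbC
      rw [sum_range_succ]
    rw [h3]
    rw [h1] at h2
    have h4 : ps e π (q (i + 1) - 1) = (ps e π (q 0 - 1) + snbC e q τ i π + uu e π (τ i) (q i)) -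
        ww e π (τ (i + 1)) (q (i + 1)) := by
      rw [h2]; abel
    rw [h4]; abel

theorem snb_pivot (e : Fin k → G) (he : Injective e) (S : Perm (Fin k) → Prop) (I : Finset ℕ)
    (hI : I ⊆ range k) (p : ℕ) (hp : p ∈ I) (g : Perm (Fin k) → G) (hg : Dep (I.erase p) g)
    (h : ∀ π, S π → el e π p = g π) : cnt S * (k - I.card) ≤ k.factorial := by
  have h1 := pivot_sum e he (fun _ => True) (I.erase p) {p} p g (dep_const _ _) hg
    ((erase_subset _ _).trans hI) (by simpa using mem_range.1 (hI hp)) (mem_singleton_self p)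
    (by simp)
  rw [cnt_true] at h1
  have h2 : I.erase p ∪ {p} = I := by
    rw [union_comm, ← insert_eq, insert_erase hp]
  rw [h2] at h1
  refine le_trans (Nat.mul_le_mul_right _ (cnt_mono fun π hπ => ?_)) h1
  exact ⟨trivial, by rw [sum_singleton]; exact h π hπ⟩

theorem near_bound (e : Fin k → G) (he : Injective e) (n : ℕ) (hn : 2 ≤ n) (q : ℕ → ℕ)
    (τ : ℕ → Fin 4) (hq : ∀ i ≤ n, 2 ≤ q i ∧ q i < k)
    (hfar : ∀ i j, i < j → j ≤ n → ¬ (i = 0 ∧ j = n) → q i + 3 ≤ q j ∨ q j + 3 ≤ q i)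
    (hclose : q 0 ≤ q n + 2 ∧ q n ≤ q 0 + 2) :
    cnt (fun π => Chain e π n q τ) * (k - 2 * (n + 1)) ^ n ≤ k.factorial * 3 ^ (n - 1) := by
  classical
  set l : ℕ → ℕ := fun i => if i = 0 then min (q 0) (q n) - 1 else q i - 1 with hl
  set r : ℕ → ℕ := fun i => if i = 0 then max (q 0) (q n) + 1 else q i + 1 with hr
  have hl0 : l 0 = min (q 0) (q n) - 1 := by simp [hl]
  have hr0 : r 0 = max (q 0) (q n) + 1 := by simp [hr]
  have hli : ∀ i, 1 ≤ i → l i = q i - 1 := fun i hi => by
    rw [hl]; simp only; rw [if_neg (by omega)]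
  have hri : ∀ i, 1 ≤ i → r i = q i + 1 := fun i hi => by
    rw [hr]; simp only; rw [if_neg (by omega)]
  set I : Finset ℕ := (range n).biUnion fun i => Ico (l i) (r i) with hI
  have hq0 := hq 0 (by omega)
  have hqn := hq n le_rfl
  have h0 : ∀ i < n, 1 ≤ l i := by
    intro i hi
    rcases Nat.eq_zero_or_pos i with rfl | h1
    · rw [hl0]; omega
    · rw [hli i h1]; have := hq i hi.le; omega
  have hlr : ∀ i < n, l i < r i := by
    intro i hi
    rcases Nat.eq_zero_or_pos i with rfl | h1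
    · rw [hl0, hr0]; omega
    · rw [hli i h1, hri i h1]; omega
  have hsep0 : ∀ j, 1 ≤ j → j < n → r 0 < l j ∨ r j < l 0 := by
    intro j h1 h2
    rw [hl0, hr0, hli j h1, hri j h1]
    have a := hfar 0 j (by omega) h2.le (by omega)
    have b := hfar j n h2 le_rfl (by omega)
    omega
  have hsep : ∀ i < n, ∀ j < n, i ≠ j → r i < l j ∨ r j < l i := by
    intro i hi j hj hij
    rcases Nat.eq_zero_or_pos i with rfl | h1
    · exact hsep0 j (by omega) hj
    · rcases Nat.eq_zero_or_pos j with rfl | h2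
      · rcases hsep0 i h1 hi with h | h
        · exact Or.inr h
        · exact Or.inl h
      · rw [hli i h1, hli j h2, hri i h1, hri j h2]
        rcases lt_or_gt_of_ne hij with h | h
        · have a := hfar i j h hj.le (by omega)
          omega
        · have a := hfar j i h hi.le (by omega)
          omega
  have hrk : ∀ i < n, r i ≤ k := by
    intro i hi
    rcases Nat.eq_zero_or_pos i with rfl | h1
    · rw [hr0]; omega
    · rw [hri i h1]; have := hq i hi.le; omega
  have hIk : I ⊆ range k := by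
    intro x hx
    rw [hI, mem_biUnion] at hx
    obtain ⟨i, hi, hx⟩ := hx
    rw [mem_Ico] at hx
    have := hrk i (mem_range.1 hi)
    rw [mem_range]
    omega
  have hIcard : I.card ≤ 2 * (n + 1) := by
    refine card_biUnion_le.trans ?_
    have h1 : ∀ i ∈ range n, (Ico (l i) (r i)).card ≤ 2 + if i = 0 then 2 else 0 := by
      intro i _
      rw [Nat.card_Ico]
      split_ifs with h
      · subst h
        rw [hl0, hr0]; omega
      · rw [hli i (by omega), hri i (by omega)]; omega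
    refine (sum_le_sum h1).trans ?_
    rw [sum_add_distrib, sum_ite_eq' (range n) 0 (fun _ => 2)]
    simp only [sum_const, card_range, smul_eq_mul, mem_range]
    split_ifs <;> omega
  -- positions
  have hmemI : ∀ j ≤ n, q j - 1 ∈ I ∧ q j ∈ I := by
    intro j hj
    rw [hI]
    simp only [mem_biUnion, mem_range, mem_Ico]
    have hqj := hq j hj
    rcases Nat.eq_zero_or_pos j with rfl | h1
    · exact ⟨⟨0, by omega, by rw [hl0, hr0]; omega⟩, ⟨0, by omega, by rw [hl0, hr0]; omega⟩⟩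
    · rcases eq_or_lt_of_le hj with rfl | h2
      · exact ⟨⟨0, by omega, by rw [hl0, hr0]; omega⟩, ⟨0, by omega, by rw [hl0, hr0]; omega⟩⟩
      · exact ⟨⟨j, h2, by rw [hli j h1, hri j h1]; omega⟩, ⟨j, h2, by rw [hli j h1, hri j h1]; omega⟩⟩
  have hZ0 : ∀ x, l 0 ≤ x → x < r 0 → x ∈ I := by
    intro x h1 h2
    rw [hI, mem_biUnion]
    exact ⟨0, mem_range.2 (by omega), mem_Ico.2 ⟨h1, h2⟩⟩
  set T : Perm (Fin k) → G := fun π => ∑ x ∈ Ico (l 0) (q n - 1), el e π x -
    ∑ x ∈ Ico (l 0) (q 0 - 1), el e π x with hT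
  set S : Perm (Fin k) → Prop := fun π => snbC e q τ n π = T π with hS
  set Ψ : ℕ → Perm (Fin k) → G := fun i π => if i = 0 then 0 else
    snbC e q τ i π + ∑ x ∈ Ico (l 0) (q 0 - 1), el e π x with hΨ
  have hIco0 : Ico (l 0) (q 0 - 1) ⊆ Ico (l 0) (r 0) := by
    intro x hx
    rw [mem_Ico] at hx ⊢
    rw [hr0]; omega
  have hIcon : Ico (l 0) (q n - 1) ⊆ Ico (l 0) (r 0) := by
    intro x hx
    rw [mem_Ico] at hx ⊢
    rw [hr0]; omega
  have hI0 : Ico (l 0) (r 0) ⊆ I := by
    intro x hx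
    rw [mem_Ico] at hx
    exact hZ0 x hx.1 hx.2
  have hTdep : Dep (Ico (l 0) (r 0)) T := by
    have a := dep_sum_el (k := k) e hIcon
    have b := dep_sum_el (k := k) e hIco0
    exact a.map₂ b (fun x y => x - y)
  have hCdep : ∀ i ≤ n, Dep I (snbC e q τ i) := by
    intro i hi π π' ha
    unfold snbC
    refine sum_congr rfl fun j hj => ?_
    have hj' := mem_range.1 hj
    have a := dep_uu e (τ j) (hmemI j (by omega)).1 (hmemI j (by omega)).2 π π' ha
    have b := dep_ww e (τ (j + 1)) (hmemI (j + 1) (by omega)).1 (hmemI (j + 1) (by omega)).2 π π' ha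
    simp only at a b
    rw [a, b]
  have hSdep : Dep I S := (hCdep n le_rfl).map₂ (hTdep.mono hI0) (fun x y => x = y)
  have hΨdep : ∀ i < n, Dep I (Ψ i) := by
    intro i hi
    rcases Nat.eq_zero_or_pos i with rfl | h1
    · intro π π' _
      simp [hΨ]
    · have a := (hCdep i hi.le).map₂ ((dep_sum_el (k := k) e hIco0).mono hI0) (fun x y => x + y)
      intro π π' ha
      have := a π π' ha
      simp only [hΨ, if_neg (show i ≠ 0 by omega)]
      exact this
  have hz := zones_bound e he n l r Ψ S I (by omega) rfl h0 hlr hsep hrk hSdep hΨdep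
  -- the chain event
  have hchain : ∀ π, Chain e π n q τ → S π ∧ ∀ i < n, ∀ j < n,
      ps e π (l i) - ps e π (l j) = Ψ i π - Ψ j π := by
    intro π hπ
    have hc := snb_chain hπ
    have hA : ps e π (q 0 - 1) = ps e π (l 0) + ∑ x ∈ Ico (l 0) (q 0 - 1), el e π x :=
      ps_eq_add e π (by rw [hl0]; omega)
    have hB : ps e π (q n - 1) = ps e π (l 0) + ∑ x ∈ Ico (l 0) (q n - 1), el e π x :=
      ps_eq_add e π (by rw [hl0]; omega)
    refine ⟨?_, ?_⟩
    · have h1 := hc n le_rfl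
      rw [hA, hB] at h1
      simp only [hS, hT]
      have h2 : ∑ x ∈ Ico (l 0) (q n - 1), el e π x = ∑ x ∈ Ico (l 0) (q 0 - 1), el e π x +
          snbC e q τ n π := by
        exact add_left_cancel (h1.trans (add_assoc _ _ _))
      rw [h2]; abel
    · have h3 : ∀ i < n, ps e π (l i) = ps e π (l 0) + Ψ i π := by
        intro i hi
        rcases Nat.eq_zero_or_pos i with rfl | h1
        · simp [hΨ]
        · have h2 := hc i hi.le
          rw [hA] at h2
          rw [hli i h1, h2]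
          simp only [hΨ, if_neg (show i ≠ 0 by omega)]
          abel
      intro i hi j hj
      rw [h3 i hi, h3 j hj]
      abel
  -- the pivot
  have hq1 := hq 1 (by omega)
  have hfar1 : ∀ j ≤ n, j ≠ 1 → q j + 3 ≤ q 1 ∨ q 1 + 3 ≤ q j := by
    intro j hj hj1
    rcases lt_or_gt_of_ne hj1 with h | h
    · have := hfar j 1 h (by omega) (by omega)
      omega
    · have := hfar 1 j h hj (by omega)
      omega
  have hne1 : ∀ p, (p = q 1 ∨ p = q 1 - 1) → ∀ j ≤ n, j ≠ 1 → q j - 1 ∈ I.erase p ∧ q j ∈ I.erase p := by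
    intro p hp j hj hj1
    have h1 := hfar1 j hj hj1
    have h2 := hmemI j hj
    have h3 := hq j hj
    refine ⟨mem_erase.2 ⟨by omega, h2.1⟩, mem_erase.2 ⟨by omega, h2.2⟩⟩
  have hZp : ∀ p, (p = q 1 ∨ p = q 1 - 1) → Ico (l 0) (r 0) ⊆ I.erase p := by
    intro p hp x hx
    have hx' := mem_Ico.1 hx
    refine mem_erase.2 ⟨?_, hI0 hx⟩
    have h1 := hsep0 1 le_rfl (by omega)
    rw [hli 1 le_rfl, hri 1 le_rfl] at h1
    omega
  set R : Perm (Fin k) → G := fun π => ∑ j ∈ (range n).erase 1, uu e π (τ j) (q j) -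
    ∑ j ∈ (range n).erase 0, ww e π (τ (j + 1)) (q (j + 1)) with hR
  have hRdep : ∀ p, (p = q 1 ∨ p = q 1 - 1) → Dep (I.erase p) R := by
    intro p hp π π' ha
    simp only [hR]
    congr 1
    · refine sum_congr rfl fun j hj => ?_
      rw [mem_erase, mem_range] at hj
      have h1 := hne1 p hp j (by omega) hj.1
      exact dep_uu e (τ j) h1.1 h1.2 π π' ha
    · refine sum_congr rfl fun j hj => ?_
      rw [mem_erase, mem_range] at hj
      have h1 := hne1 p hp (j + 1) (by omega) (by omega)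
      exact dep_ww e (τ (j + 1)) h1.1 h1.2 π π' ha
  have hCR : ∀ π, snbC e q τ n π = R π + (uu e π (τ 1) (q 1) - ww e π (τ 1) (q 1)) := by
    intro π
    unfold snbC
    rw [sum_sub_distrib, ← add_sum_erase (range n) (fun j => uu e π (τ j) (q j))
      (mem_range.2 (show 1 < n by omega)), ← add_sum_erase (range n)
      (fun j => ww e π (τ (j + 1)) (q (j + 1))) (mem_range.2 (show 0 < n by omega))]
    simp only [hR, zero_add]
    abel
  have hScnt : cnt S * (k - I.card) ≤ k.factorial := by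
    have hTd : ∀ p, (p = q 1 ∨ p = q 1 - 1) → Dep (I.erase p) T := fun p hp => hTdep.mono (hZp p hp)
    have hτ : τ 1 = 0 ∨ τ 1 = 1 ∨ τ 1 = 2 ∨ τ 1 = 3 := by
      generalize τ 1 = z
      fin_cases z <;> simp
    have hm := hmemI 1 (by omega)
    have hel : Dep (I.erase (q 1)) (fun π : Perm (Fin k) => el e π (q 1 - 1)) :=
      dep_el e (mem_erase.2 ⟨by omega, hm.1⟩)
    rcases hτ with h | h | h | h
    · refine snb_pivot e he S I hIk (q 1) hm.2 (fun π => (R π - T π) + el e π (q 1 - 1))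
        (((hRdep _ (Or.inl rfl)).map₂ (hTd _ (Or.inl rfl)) (fun x y => x - y)).map₂ hel
          (fun x y => x + y)) fun π hπ => ?_
      have h1 : R π + (uu e π (τ 1) (q 1) - ww e π (τ 1) (q 1)) = T π := (hCR π).symm.trans hπ
      rw [h] at h1
      simp [uu, ww] at h1
      rw [← h1]; abel
    · refine snb_pivot e he S I hIk (q 1) hm.2 (fun π => (T π - R π) + el e π (q 1 - 1))
        (((hTd _ (Or.inl rfl)).map₂ (hRdep _ (Or.inl rfl)) (fun x y => x - y)).map₂ hel
          (fun x y => x + y)) fun π hπ => ?_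
      have h1 : R π + (uu e π (τ 1) (q 1) - ww e π (τ 1) (q 1)) = T π := (hCR π).symm.trans hπ
      rw [h] at h1
      simp [uu, ww] at h1
      rw [← h1]; abel
    · refine snb_pivot e he S I hIk (q 1) hm.2 (fun π => (T π - R π))
        ((hTd _ (Or.inl rfl)).map₂ (hRdep _ (Or.inl rfl)) (fun x y => x - y)) fun π hπ => ?_
      have h1 : R π + (uu e π (τ 1) (q 1) - ww e π (τ 1) (q 1)) = T π := (hCR π).symm.trans hπ
      rw [h] at h1
      simp [uu, ww] at h1
      rw [← h1]; abel
    · refine snb_pivot e he S I hIk (q 1 - 1) hm.1 (fun π => (R π - T π))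
        ((hRdep _ (Or.inr rfl)).map₂ (hTd _ (Or.inr rfl)) (fun x y => x - y)) fun π hπ => ?_
      have h1 : R π + (uu e π (τ 1) (q 1) - ww e π (τ 1) (q 1)) = T π := (hCR π).symm.trans hπ
      rw [h] at h1
      simp [uu, ww] at h1
      rw [← h1]; abel
  -- conclusion
  have hcnt : cnt (fun π => Chain e π n q τ) ≤ cnt (fun π => S π ∧ ∀ i < n, ∀ j < n,
      ps e π (l i) - ps e π (l j) = Ψ i π - Ψ j π) := cnt_mono hchain
  have hle : k - 2 * (n + 1) ≤ k - I.card := by omega
  obtain ⟨m, rfl⟩ : ∃ m, n = m + 1 := ⟨n - 1, by omega⟩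
  simp only [Nat.add_sub_cancel] at hz ⊢
  calc cnt (fun π => Chain e π (m + 1) q τ) * (k - 2 * (m + 1 + 1)) ^ (m + 1)
      ≤ cnt (fun π => S π ∧ ∀ i < m + 1, ∀ j < m + 1,
        ps e π (l i) - ps e π (l j) = Ψ i π - Ψ j π) * (k - I.card) ^ (m + 1) :=
        Nat.mul_le_mul hcnt (Nat.pow_le_pow_left hle _)
    _ = (cnt (fun π => S π ∧ ∀ i < m + 1, ∀ j < m + 1,
        ps e π (l i) - ps e π (l j) = Ψ i π - Ψ j π) * (k - I.card) ^ m) * (k - I.card) := by
        rw [pow_succ]; ring
    _ ≤ (cnt S * 3 ^ m) * (k - I.card) := Nat.mul_le_mul_right _ hz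
    _ = (cnt S * (k - I.card)) * 3 ^ m := by ring
    _ ≤ k.factorial * 3 ^ m := Nat.mul_le_mul_right _ hScnt

end Pool.Agent.SEQ

-- author of this block: helper69
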