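import Pool.Agent.Lib_helper26.SEQ.Defs

/-! Block SSW: swapping a set of pairwise nonadjacent positions. -/

namespace Pool.Agent.SEQ

open Finset Equiv Function

variable {G : Type*} [AddCommGroup G] {k : ℕ}

theorem ssw_el_of_ne (e : Fin k → G) (π : Perm (Fin k)) {x : ℕ} (h1 : x - 1 < k) (h2 : x < k)
    {p : ℕ} (hp1 : p ≠ x - 1) (hp2 : p ≠ x) :
    el e (π * swap ⟨x - 1, h1⟩ ⟨x, h2⟩) p = el e π p := by
  unfold el
  split
  · rename_i hk
    rw [Perm.mul_apply, swap_apply_of_ne_of_ne]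
    · intro h
      exact hp1 (congrArg Fin.val h)
    · intro h
      exact hp2 (congrArg Fin.val h)
  · rfl

theorem ssw_el_left (e : Fin k → G) (π : Perm (Fin k)) {x : ℕ} (h1 : x - 1 < k) (h2 : x < k) :
    el e (π * swap ⟨x - 1, h1⟩ ⟨x, h2⟩) (x - 1) = el e π x := by
  unfold el
  rw [dif_pos h1, dif_pos h2, Perm.mul_apply, swap_apply_left]

theorem ssw_el_right (e : Fin k → G) (π : Perm (Fin k)) {x : ℕ} (h1 : x - 1 < k) (h2 : x < k) :
    el e (π * swap ⟨x - 1, h1⟩ ⟨x, h2⟩) x = el e π (x - 1) := by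
  unfold el
  rw [dif_pos h1, dif_pos h2, Perm.mul_apply, swap_apply_right]

theorem ssw_ps_lt (e : Fin k → G) (π : Perm (Fin k)) {x : ℕ} (h1 : x - 1 < k) (h2 : x < k)
    {j : ℕ} (hj : j ≤ x - 1) :
    ps e (π * swap ⟨x - 1, h1⟩ ⟨x, h2⟩) j = ps e π j := by
  unfold ps
  refine Finset.sum_congr rfl fun p hp => ?_
  rw [Finset.mem_range] at hp
  exact ssw_el_of_ne e π h1 h2 (by omega) (by omega)

theorem ssw_ps_gt (e : Fin k → G) (π : Perm (Fin k)) {x : ℕ} (hx : 1 ≤ x) (h1 : x - 1 < k)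
    (h2 : x < k) {j : ℕ} (hj : x + 1 ≤ j) :
    ps e (π * swap ⟨x - 1, h1⟩ ⟨x, h2⟩) j = ps e π j := by
  have key : ∀ ρ : Perm (Fin k), ps e ρ j = ps e ρ (x - 1) + el e ρ (x - 1) + el e ρ x +
      ∑ p ∈ Ico (x + 1) j, el e ρ p := by
    intro ρ
    rw [ps_eq_add e ρ hj, ps_succ e ρ x]
    have : ps e ρ x = ps e ρ (x - 1) + el e ρ (x - 1) := by
      have h := ps_succ e ρ (x - 1)
      rwa [Nat.sub_add_cancel hx] at h
    rw [this]
  rw [key, key, ssw_ps_lt e π h1 h2 le_rfl, ssw_el_left, ssw_el_right]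
  have : ∑ p ∈ Ico (x + 1) j, el e (π * swap ⟨x - 1, h1⟩ ⟨x, h2⟩) p =
      ∑ p ∈ Ico (x + 1) j, el e π p := by
    refine Finset.sum_congr rfl fun p hp => ?_
    rw [Finset.mem_Ico] at hp
    exact ssw_el_of_ne e π h1 h2 (by omega) (by omega)
  rw [this]
  abel

theorem ssw_main (e : Fin k → G) (π : Perm (Fin k)) (X : Finset ℕ) :
    (∀ x ∈ X, 1 ≤ x ∧ x < k) → (∀ x ∈ X, x + 1 ∉ X) →
    ∃ π' : Perm (Fin k), (∀ j ≤ k, ps e π' j = vv e π j (decide (j ∈ X))) ∧
      ∀ p : Fin k, (p : ℕ) ∉ X → (p : ℕ) + 1 ∉ X → π' p = π p := by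
  induction X using Finset.induction_on with
  | empty =>
    intro _ _
    exact ⟨π, fun j _ => by simp [vv], fun _ _ _ => rfl⟩
  | insert x X hx ih =>
    intro hX1 hX2
    obtain ⟨π', hps, hag⟩ := ih (fun y hy => hX1 y (mem_insert_of_mem hy))
      (fun y hy hy' => hX2 y (mem_insert_of_mem hy) (mem_insert_of_mem hy'))
    obtain ⟨hx1, hxk⟩ := hX1 x (mem_insert_self _ _)
    have hxs : x + 1 ∉ X := fun h => hX2 x (mem_insert_self _ _) (mem_insert_of_mem h)
    have hxp : x - 1 ∉ X := by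
      intro h
      apply hX2 (x - 1) (mem_insert_of_mem h)
      rw [Nat.sub_add_cancel hx1]
      exact mem_insert_self _ _
    have h1 : x - 1 < k := by omega
    have eX : el e π' x = el e π x := by
      unfold el
      rw [dif_pos hxk, dif_pos hxk, hag ⟨x, hxk⟩ hx hxs]
    have eX1 : el e π' (x - 1) = el e π (x - 1) := by
      unfold el
      rw [dif_pos h1, dif_pos h1, hag ⟨x - 1, h1⟩ hxp (by
        show x - 1 + 1 ∉ X
        rw [Nat.sub_add_cancel hx1]; exact hx)]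
    refine ⟨π' * swap ⟨x - 1, h1⟩ ⟨x, hxk⟩, ?_, ?_⟩
    · intro j hj
      rcases lt_trichotomy j x with hlt | heq | hgt
      · rw [ssw_ps_lt e π' h1 hxk (by omega), hps j hj]
        have : decide (j ∈ insert x X) = decide (j ∈ X) := by
          simp [hlt.ne]
        rw [this]
      · subst heq
        have a1 : ps e (π' * swap ⟨j - 1, h1⟩ ⟨j, hxk⟩) j =
            ps e (π' * swap ⟨j - 1, h1⟩ ⟨j, hxk⟩) (j - 1) +
              el e (π' * swap ⟨j - 1, h1⟩ ⟨j, hxk⟩) (j - 1) := by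
          have h := ps_succ e (π' * swap ⟨j - 1, h1⟩ ⟨j, hxk⟩) (j - 1)
          rwa [Nat.sub_add_cancel hx1] at h
        have a2 : ps e π' j = ps e π' (j - 1) + el e π' (j - 1) := by
          have h := ps_succ e π' (j - 1)
          rwa [Nat.sub_add_cancel hx1] at h
        have a3 : ps e π' j = ps e π j := by
          rw [hps j hj]
          simp [vv, hx]
        rw [a1, ssw_ps_lt e π' h1 hxk le_rfl, ssw_el_left, eX]
        have : decide (j ∈ insert j X) = true := by simp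
        rw [this]
        simp only [vv, if_true]
        rw [← a3, a2, eX1]
        abel
      · rw [ssw_ps_gt e π' hx1 h1 hxk (by omega), hps j hj]
        have : decide (j ∈ insert x X) = decide (j ∈ X) := by
          simp [hgt.ne']
        rw [this]
    · intro p hp hp1
      rw [mem_insert, not_or] at hp hp1
      rw [Perm.mul_apply, swap_apply_of_ne_of_ne, hag p hp.2 hp1.2]
      · intro h
        apply hp1.1
        have := congrArg Fin.val h
        simp only at this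
        omega
      · intro h
        exact hp.1 (congrArg Fin.val h)

/-- SSW -/
theorem swap_set (e : Fin k → G) (π : Perm (Fin k)) (X : Finset ℕ)
    (hX1 : ∀ x ∈ X, 1 ≤ x ∧ x < k) (hX2 : ∀ x ∈ X, x + 1 ∉ X) :
    ∃ π' : Perm (Fin k), ∀ j ≤ k, ps e π' j = vv e π j (decide (j ∈ X)) := by
  obtain ⟨π', h, _⟩ := ssw_main e π X hX1 hX2
  exact ⟨π', h⟩

end Pool.Agent.SEQ

-- author of this block: helper14
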