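import Pool.Agent.Lib_helper26.SEQ.Defs
import Pool.Agent.Lib_helper26.SEQ.WSWN
import Pool.Agent.Lib_helper26.SEQ.WSPV

namespace Pool.Agent.SEQ

open Finset Equiv Function

variable {G : Type*} [AddCommGroup G] {k : ℕ}

theorem swb_cnt_false {E : Perm (Fin k) → Prop} (h : ∀ π, ¬ E π) : cnt E = 0 := by
  classical
  unfold cnt
  rw [Finset.card_eq_zero, Finset.filter_eq_empty_iff]
  intro π _
  exact h π

/-- the shape conditions -/
def swb_sh (k t x : ℕ) (s : Bool) (y : ℕ) (r : Bool) : Prop :=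
  x + 2 ≤ y ∧ y ≤ x + t ∧ y ≤ k ∧ (s = true → 1 ≤ x) ∧ (r = true → y < k)

theorem swb_co {e : Fin k → G} {t : ℕ} {π : Perm (Fin k)} {x : ℕ} {s : Bool} {y : ℕ} {r : Bool}
    (h : Co e t π x s y r) : swb_sh k t x s y r ∧ ∑ p ∈ win x s y r, el e π p = 0 := by
  obtain ⟨h1, h2, h3, h4, h5, h6⟩ := h
  refine ⟨⟨h1, h2, h3, h4, h5⟩, ?_⟩
  rw [← win_sum e π x s y r h1 h4, h6, sub_self]

theorem swb_step (e : Fin k → G) (he : Injective e) (S : Perm (Fin k) → Prop) (D Q : Finset ℕ)
    (p : ℕ) (hS : Dep D S) (hD : D ⊆ range k) (hQ : Q ⊆ range k) (hpQ : p ∈ Q) (hpD : p ∉ D)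
    (m : ℕ) (hm : m + (D ∪ Q).card ≤ k) :
    cnt (fun π => S π ∧ ∑ x ∈ Q, el e π x = 0) * m ≤ cnt S := by
  have h := pivot_sum e he S D Q p (fun _ => 0) hS (dep_const D 0) hD hQ hpQ hpD
  refine le_trans ?_ h
  apply Nat.mul_le_mul_left
  omega

theorem win_bound (e : Fin k → G) (he : Injective e) (t x : ℕ) (s : Bool) (y : ℕ) (r : Bool) :
    cnt (fun π => Co e t π x s y r) * (k - t) ≤ k.factorial := by
  by_cases hsh : swb_sh k t x s y r
  · obtain ⟨h1, h2, h3, h4, h5⟩ := hsh
    have hc := win_card x s y r h1 h4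
    have hsub := win_subset k x s y r h1 h3 h5
    obtain ⟨p, hp⟩ : (win x s y r).Nonempty := by
      rw [← Finset.card_pos, hc]; omega
    have hk := Finset.card_le_card hsub
    rw [Finset.card_range, hc] at hk
    by_cases htk : t ≤ k
    · have h := swb_step e he (fun _ => True) ∅ (win x s y r) p (dep_const ∅ True)
        (Finset.empty_subset _) hsub hp (Finset.notMem_empty _) (k - t) (by
          rw [Finset.empty_union, hc]; omega)
      rw [cnt_true] at h
      refine le_trans ?_ h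
      apply Nat.mul_le_mul_right
      apply cnt_mono
      intro π hπ
      exact ⟨trivial, (swb_co hπ).2⟩
    · rw [Nat.sub_eq_zero_of_le (by omega), mul_zero]
      exact Nat.zero_le _
  · rw [swb_cnt_false (fun π hπ => hsh (swb_co hπ).1), zero_mul]
    exact Nat.zero_le _

theorem swb_two (e : Fin k → G) (he : Injective e) (A B : Finset ℕ) (hA : A ⊆ range k)
    (hB : B ⊆ range k) (hAne : A.Nonempty) (p : ℕ) (hpB : p ∈ B) (hpA : p ∉ A) (m : ℕ)
    (hm : m + (A ∪ B).card ≤ k) :
    cnt (fun π => ∑ x ∈ A, el e π x = 0 ∧ ∑ x ∈ B, el e π x = 0) * m ^ 2 ≤ k.factorial := by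
  have h1 := swb_step e he (fun π => ∑ x ∈ A, el e π x = 0) A B p (by
    intro π π' h
    have := dep_sum_el e (Finset.Subset.refl A) π π' h
    simp only at this ⊢
    rw [this]) hA hB hpB hpA m hm
  obtain ⟨q, hq⟩ := hAne
  have h2 := swb_step e he (fun _ => True) ∅ A q (dep_const ∅ True)
        (Finset.empty_subset _) hA hq (Finset.notMem_empty _) m (by
          rw [Finset.empty_union]
          have := Finset.card_le_card (Finset.subset_union_left : A ⊆ A ∪ B)
          omega)
  rw [cnt_true] at h2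
  have h3 : cnt (fun π : Perm (Fin k) => ∑ x ∈ A, el e π x = 0) ≤
      cnt (fun π : Perm (Fin k) => True ∧ ∑ x ∈ A, el e π x = 0) :=
    cnt_mono (fun π h => ⟨trivial, h⟩)
  calc cnt (fun π => ∑ x ∈ A, el e π x = 0 ∧ ∑ x ∈ B, el e π x = 0) * m ^ 2
      = cnt (fun π => ∑ x ∈ A, el e π x = 0 ∧ ∑ x ∈ B, el e π x = 0) * m * m := by ring
    _ ≤ cnt (fun π : Perm (Fin k) => ∑ x ∈ A, el e π x = 0) * m := Nat.mul_le_mul_right _ h1
    _ ≤ cnt (fun π : Perm (Fin k) => True ∧ ∑ x ∈ A, el e π x = 0) * m :=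
        Nat.mul_le_mul_right _ h3
    _ ≤ _ := h2

theorem win_pair_bound (e : Fin k → G) (he : Injective e) (t x : ℕ) (s : Bool) (y : ℕ)
    (r : Bool) (x' : ℕ) (s' : Bool) (y' : ℕ) (r' : Bool) (hne : win x s y r ≠ win x' s' y' r')
    (hshort : y ≤ x + 3) :
    cnt (fun π => Co e t π x s y r ∧ Co e t π x' s' y' r') * (k - t - 3) ^ 2 ≤ k.factorial := by
  by_cases hsh : swb_sh k t x s y r ∧ swb_sh k t x' s' y' r'
  · obtain ⟨⟨h1, h2, h3, h4, h5⟩, ⟨g1, g2, g3, g4, g5⟩⟩ := hsh
    have hc := win_card x s y r h1 h4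
    have hsub := win_subset k x s y r h1 h3 h5
    have gc := win_card x' s' y' r' g1 g4
    have gsub := win_subset k x' s' y' r' g1 g3 g5
    have hcu := Finset.card_union_le (win x s y r) (win x' s' y' r')
    rw [hc, gc] at hcu
    have hn1 : (win x s y r).Nonempty := by
      rw [← Finset.card_pos, hc]; omega
    have hn2 : (win x' s' y' r').Nonempty := by
      rw [← Finset.card_pos, gc]; omega
    by_cases htk : t + 3 ≤ k
    · by_cases hin : win x' s' y' r' ⊆ win x s y r
      · have : ∃ p, p ∈ win x s y r ∧ p ∉ win x' s' y' r' := by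
          by_contra hcon
          push Not at hcon
          exact hne (Finset.Subset.antisymm hcon hin)
        obtain ⟨p, hp1, hp2⟩ := this
        have h := swb_two e he (win x' s' y' r') (win x s y r) gsub hsub hn2 p hp1 hp2
          (k - t - 3) (by rw [Finset.union_comm]; omega)
        refine le_trans ?_ h
        apply Nat.mul_le_mul_right
        apply cnt_mono
        intro π hπ
        exact ⟨(swb_co hπ.2).2, (swb_co hπ.1).2⟩
      · obtain ⟨p, hp1, hp2⟩ := Finset.not_subset.mp hin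
        have h := swb_two e he (win x s y r) (win x' s' y' r') hsub gsub hn1 p hp1 hp2
          (k - t - 3) (by omega)
        refine le_trans ?_ h
        apply Nat.mul_le_mul_right
        apply cnt_mono
        intro π hπ
        exact ⟨(swb_co hπ.1).2, (swb_co hπ.2).2⟩
    · have : k - t - 3 = 0 := by omega
      rw [this]
      simp
  · rw [swb_cnt_false (fun π hπ => hsh ⟨(swb_co hπ.1).1, (swb_co hπ.2).1⟩), zero_mul]
    exact Nat.zero_le _

end Pool.Agent.SEQ

-- author of this block: helper58
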