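import Pool.Agent.Lib_helper26.SEQ.Defs
import Pool.Agent.Lib_helper26.SEQ.WSWB

/-! SUA: union bound for coincidences near the ends. -/

namespace Pool.Agent.SEQ

open Finset Equiv Function

variable {G : Type*} [AddCommGroup G] {k : ℕ}

/-- SUA -/
theorem ub_one (e : Fin k → G) (he : Injective e) (t : ℕ) :
    cnt (fun π => B1 e t π) * (k - t) ≤ k.factorial * (12 * t) := by
  classical
  let J : Finset (ℕ × ℕ × Bool × Bool) :=
    range 3 ×ˢ (range t ×ˢ ((univ : Finset Bool) ×ˢ (univ : Finset Bool)))
  let E : ℕ × ℕ × Bool × Bool → Perm (Fin k) → Prop := fun i π =>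
    Co e t π (if i.1 = 2 then k - (i.2.1 + 1) else i.1) i.2.2.1
      (if i.1 = 2 then k else i.1 + (i.2.1 + 1)) i.2.2.2
  have h1 : cnt (fun π => B1 e t π) ≤ cnt (fun π => ∃ i ∈ J, E i π) := by
    apply cnt_mono
    rintro π ⟨x, s, y, r, hco, hxy⟩
    have hco' := hco
    obtain ⟨c1, c2, c3, -, -, -⟩ := hco'
    rcases hxy with hx | hy
    · refine ⟨(x, y - x - 1, s, r), ?_, ?_⟩
      · simp only [J, mem_product, mem_range, mem_univ, and_true]
        omega
      · show Co e t π (if x = 2 then k - (y - x - 1 + 1) else x) s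
          (if x = 2 then k else x + (y - x - 1 + 1)) r
        rw [if_neg (by omega), if_neg (by omega), show x + (y - x - 1 + 1) = y by omega]
        exact hco
    · refine ⟨(2, k - x - 1, s, r), ?_, ?_⟩
      · simp only [J, mem_product, mem_range, mem_univ, and_true]
        omega
      · show Co e t π (if 2 = 2 then k - (k - x - 1 + 1) else 2) s
          (if 2 = 2 then k else 2 + (k - x - 1 + 1)) r
        rw [if_pos rfl, if_pos rfl, show k - (k - x - 1 + 1) = x by omega]
        rw [hy] at hco
        exact hco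
  have h2 : cnt (fun π => ∃ i ∈ J, E i π) ≤ ∑ i ∈ J, cnt (E i) := cnt_exists_le J E
  have h3 : J.card = 12 * t := by
    simp only [J, card_product, card_range, card_univ, Fintype.card_bool]
    ring
  calc cnt (fun π => B1 e t π) * (k - t) ≤ (∑ i ∈ J, cnt (E i)) * (k - t) :=
        Nat.mul_le_mul_right _ (h1.trans h2)
    _ = ∑ i ∈ J, cnt (E i) * (k - t) := Finset.sum_mul _ _ _
    _ ≤ ∑ _i ∈ J, k.factorial := Finset.sum_le_sum fun i _ => win_bound e he t _ _ _ _
    _ = k.factorial * (12 * t) := by rw [Finset.sum_const, h3, smul_eq_mul]; ring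

end Pool.Agent.SEQ

-- author of this block: helper80
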