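import Pool.Agent.Lib_helper26.SEQ.Defs
import Pool.Agent.Lib_helper26.SEQ.WSWB

/-! Block SUB. -/

namespace Pool.Agent.SEQ

open Finset Equiv Function

variable {G : Type*} [AddCommGroup G] {k : ℕ}

/-- the index type -/
abbrev SubI : Type := (ℕ × ℕ) × (Fin 2 × Bool × Bool × Bool × Fin 3 × Bool × Bool × Bool)

/-- the first window, `y` -/
def sub_y (i : SubI) : ℕ := i.1.1 + 2 + (i.2.1 : ℕ)

/-- the common point -/
def sub_w (i : SubI) : ℕ :=
  (if i.2.2.2.2.1 then i.1.1 else sub_y i) + (i.2.2.2.2.2.1 : ℕ) - 1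

/-- the second window, `x'` -/
def sub_x' (i : SubI) : ℕ :=
  if i.2.2.2.2.2.2.1 then sub_w i else sub_w i - 1 - i.1.2

/-- the second window, `y'` -/
def sub_y' (i : SubI) : ℕ :=
  if i.2.2.2.2.2.2.1 then sub_w i + 1 + i.1.2 else sub_w i

/-- the event of an index -/
def sub_E (e : Fin k → G) (t : ℕ) (i : SubI) (π : Perm (Fin k)) : Prop :=
  win i.1.1 i.2.2.1 (sub_y i) i.2.2.2.1 ≠ win (sub_x' i) i.2.2.2.2.2.2.2.1 (sub_y' i) i.2.2.2.2.2.2.2.2 ∧
  Co e t π i.1.1 i.2.2.1 (sub_y i) i.2.2.2.1 ∧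
    Co e t π (sub_x' i) i.2.2.2.2.2.2.2.1 (sub_y' i) i.2.2.2.2.2.2.2.2

theorem sub_E_bound (e : Fin k → G) (he : Injective e) (t : ℕ) (i : SubI) :
    cnt (fun π => sub_E e t i π) * (k - t - 3) ^ 2 ≤ k.factorial := by
  by_cases hne : win i.1.1 i.2.2.1 (sub_y i) i.2.2.2.1 ≠
      win (sub_x' i) i.2.2.2.2.2.2.2.1 (sub_y' i) i.2.2.2.2.2.2.2.2
  · refine le_trans (Nat.mul_le_mul_right _ (cnt_mono fun π hπ => hπ.2)) ?_
    refine win_pair_bound e he t _ _ _ _ _ _ _ _ hne ?_
    unfold sub_y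
    have := i.2.1.2
    omega
  · have h0 : cnt (fun π => sub_E e t i π) = 0 := by
      classical
      unfold cnt
      rw [Finset.card_eq_zero, Finset.filter_eq_empty_iff]
      intro π _ hπ
      exact hne hπ.1
    rw [h0, zero_mul]
    exact Nat.zero_le _

theorem sub_cover_aux {x y x' y' t : ℕ} (h1 : x + 2 ≤ y) (h2 : y ≤ x + 3) (h1' : x' + 2 ≤ y')
    (h3' : y' ≤ x' + t) {z : ℕ} {bz : Bool} (hz : z = if bz then x else y) {v : ℕ} {bv : Bool}
    (hv : v = if bv then x' else y') (hzv : z ≤ v + 1 ∧ v ≤ z + 1) (s r s' r' : Bool) :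
    ∃ (d : ℕ) (j : Fin 2) (ε : Fin 3), d < t ∧
      sub_y ((x, d), (j, s, r, bz, ε, bv, s', r')) = y ∧
      sub_x' ((x, d), (j, s, r, bz, ε, bv, s', r')) = x' ∧
      sub_y' ((x, d), (j, s, r, bz, ε, bv, s', r')) = y' := by
  refine ⟨y' - x' - 1, ⟨y - x - 2, by omega⟩, ⟨v + 1 - z, by omega⟩, by omega, ?_⟩
  have hy : ∀ (d : ℕ) (ε : Fin 3), sub_y ((x, d), (⟨y - x - 2, by omega⟩, s, r, bz, ε, bv, s', r')) = y := by
    intro d ε
    simp only [sub_y]
    omega
  have hw : sub_w ((x, y' - x' - 1), (⟨y - x - 2, by omega⟩, s, r, bz, ⟨v + 1 - z, by omega⟩, bv, s', r'))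
      = v := by
    simp only [sub_w, hy]
    rw [← hz]
    omega
  refine ⟨hy _ _, ?_, ?_⟩
  · simp only [sub_x', hw]
    cases bv
    · simp only [Bool.false_eq_true, if_false] at hv ⊢
      omega
    · simp only [if_true] at hv ⊢
      exact hv
  · simp only [sub_y', hw]
    cases bv
    · simp only [Bool.false_eq_true, if_false] at hv ⊢
      exact hv
    · simp only [if_true] at hv ⊢
      omega

theorem ub_two (e : Fin k → G) (he : Injective e) (t : ℕ) :
    cnt (fun π => B2 e t π) * (k - t - 3) ^ 2 ≤ k.factorial * (384 * k * t) := by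
  classical
  set J : Finset SubI := (range k ×ˢ range t) ×ˢ Finset.univ with hJ
  have hcard : J.card = 384 * k * t := by
    rw [hJ, Finset.card_product, Finset.card_product, Finset.card_range, Finset.card_range,
      Finset.card_univ]
    have : Fintype.card (Fin 2 × Bool × Bool × Bool × Fin 3 × Bool × Bool × Bool) = 384 := by
      simp only [Fintype.card_prod, Fintype.card_fin, Fintype.card_bool]
    rw [this]
    ring
  have hcov : ∀ π, B2 e t π → ∃ i ∈ J, sub_E e t i π := by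
    rintro π ⟨x, s, y, r, x', s', y', r', hC, hC', hy, hne, hadj⟩
    have hC1 := hC
    have hC1' := hC'
    obtain ⟨c1, c2, c3, _⟩ := hC1
    obtain ⟨d1, d2, d3, _⟩ := hC1'
    have key : ∃ (bz bv : Bool), (if bz then x else y) ≤ (if bv then x' else y') + 1 ∧
        (if bv then x' else y') ≤ (if bz then x else y) + 1 := by
      rcases hadj with h | h | h | h
      · exact ⟨true, true, by simpa using h⟩
      · exact ⟨true, false, by simpa using h⟩
      · exact ⟨false, true, by simpa using h⟩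
      · exact ⟨false, false, by simpa using h⟩
    obtain ⟨bz, bv, hb⟩ := key
    obtain ⟨d, j, ε, hd, e1, e2, e3⟩ := sub_cover_aux c1 hy d1 d2 rfl rfl hb s r s' r'
    refine ⟨((x, d), (j, s, r, bz, ε, bv, s', r')), ?_, ?_, ?_, ?_⟩
    · rw [hJ]
      simp only [Finset.mem_product, Finset.mem_range, Finset.mem_univ, and_true]
      omega
    · rw [e1, e2, e3]
      exact hne
    · rw [e1]
      exact hC
    · rw [e2, e3]
      exact hC'
  calc cnt (fun π => B2 e t π) * (k - t - 3) ^ 2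
      ≤ (∑ i ∈ J, cnt (sub_E e t i)) * (k - t - 3) ^ 2 :=
        Nat.mul_le_mul_right _ ((cnt_mono hcov).trans (cnt_exists_le J (sub_E e t)))
    _ = ∑ i ∈ J, cnt (sub_E e t i) * (k - t - 3) ^ 2 := Finset.sum_mul _ _ _
    _ ≤ ∑ _i ∈ J, k.factorial := Finset.sum_le_sum fun i _ => sub_E_bound e he t i
    _ = k.factorial * (384 * k * t) := by
        rw [Finset.sum_const, hcard, smul_eq_mul, mul_comm]

end Pool.Agent.SEQ

-- author of this block: helper22
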