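import Pool.Agent.Lib_helper26.SEQ.Defs
import Pool.Agent.Lib_helper26.SEQ.WSFB
import Pool.Agent.Lib_helper26.SEQ.WSCN

/-! Block SUF: union bound for far paths. -/

namespace Pool.Agent.SEQ

open Finset Equiv Function

variable {G : Type*} [AddCommGroup G] {k : ℕ}

/-- extension of a finite sequence of positions -/
def suf_ext (n : ℕ) (q : Fin (n + 1) → ℕ) (i : ℕ) : ℕ :=
  if h : i < n + 1 then q ⟨i, h⟩ else 0

/-- extension of a finite sequence of types -/
def suf_tau (n : ℕ) (τ : Fin n → Fin 4) (c : Bool) (i : ℕ) : Fin 4 :=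
  if h : i < n then τ ⟨i, h⟩ else if c then 1 else 0

theorem suf_chain_congr (e : Fin k → G) (π : Perm (Fin k)) (n : ℕ) {q q' : ℕ → ℕ}
    {τ τ' : ℕ → Fin 4} (hq : ∀ i ≤ n, q i = q' i) (hτ : ∀ i ≤ n, τ i = τ' i)
    (h : Chain e π n q τ) : Chain e π n q' τ' := by
  intro i hi
  rw [← hq i hi.le, ← hq (i + 1) hi, ← hτ i hi.le, ← hτ (i + 1) hi]
  exact h i hi

theorem suf_cnt_zero {E : Perm (Fin k) → Prop} (h : ∀ π, ¬ E π) : cnt E = 0 := by
  classical
  unfold cnt
  refine card_eq_zero.mpr (Finset.eq_empty_of_forall_notMem fun π hπ => ?_)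
  simp only [mem_filter] at hπ
  exact h π hπ.2

/-- the conditions on the positions -/
def suf_far (k n : ℕ) (q : ℕ → ℕ) : Prop :=
  (∀ i ≤ n, 2 ≤ q i ∧ q i < k) ∧ ∀ i j, i < j → j ≤ n → q i + 3 ≤ q j ∨ q j + 3 ≤ q i

/-- SUF -/
theorem ub_far (e : Fin k → G) (he : Injective e) (t n : ℕ) :
    cnt (fun π => FP e t n π) * (k - 2 * (n + 1)) ^ n ≤
      k.factorial * (3 ^ n * (k * (2 * t + 3) ^ n) * (4 ^ n * 2)) := by
  classical
  set Sq : Finset (Fin (n + 1) → ℕ) :=
    (Fintype.piFinset fun _ : Fin (n + 1) => range k).filter fun q => ∀ i : Fin n,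
      q i.castSucc ≤ q i.succ + (t + 1) ∧ q i.succ ≤ q i.castSucc + (t + 1) with hSq
  set J : Finset ((Fin (n + 1) → ℕ) × (Fin n → Fin 4) × Bool) :=
    Sq ×ˢ (univ : Finset (Fin n → Fin 4)) ×ˢ (univ : Finset Bool) with hJ
  set E : (Fin (n + 1) → ℕ) × (Fin n → Fin 4) × Bool → Perm (Fin k) → Prop := fun a π =>
    suf_far k n (suf_ext n a.1) ∧ Chain e π n (suf_ext n a.1) (suf_tau n a.2.1 a.2.2) with hE
  have hcard : J.card ≤ (k * (2 * t + 3) ^ n) * (4 ^ n * 2) := by
    rw [hJ, card_product, card_product]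
    have h1 : (univ : Finset (Fin n → Fin 4)).card = 4 ^ n := by simp
    have h2 : (univ : Finset Bool).card = 2 := by simp
    rw [h1, h2]
    exact Nat.mul_le_mul_right _ (seq_count k t n)
  have hone : ∀ a ∈ J, cnt (E a) * (k - 2 * (n + 1)) ^ n ≤ k.factorial * 3 ^ n := by
    intro a _
    by_cases hf : suf_far k n (suf_ext n a.1)
    · have h1 : cnt (E a) ≤ cnt (fun π => Chain e π n (suf_ext n a.1) (suf_tau n a.2.1 a.2.2)) :=
        cnt_mono fun π h => h.2
      exact (Nat.mul_le_mul_right _ h1).trans (far_bound e he n _ _ hf.1 hf.2)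
    · have h1 : cnt (E a) = 0 := by
        exact suf_cnt_zero fun π h => hf h.1
      rw [h1, zero_mul]
      exact Nat.zero_le _
  have hsub : cnt (fun π => FP e t n π) ≤ cnt (fun π => ∃ a ∈ J, E a π) := by
    refine cnt_mono fun π h => ?_
    obtain ⟨q, τ, hq, hstep, hfar, hτ, hch⟩ := h
    have eq1 : ∀ i ≤ n, q i = suf_ext n (fun i => q i) i := by
      intro i hi
      unfold suf_ext
      rw [dif_pos (by omega)]
    have et1 : ∀ i ≤ n, τ i = suf_tau n (fun i => τ i) (decide (τ n = 1)) i := by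
      intro i hi
      unfold suf_tau
      by_cases h : i < n
      · rw [dif_pos h]
      · have hin : i = n := by omega
        subst hin
        rw [dif_neg h]
        rcases hτ with h0 | h1
        · rw [h0]; simp
        · rw [h1]; simp
    refine ⟨(fun i => q i, fun i => τ i, decide (τ n = 1)), ?_, ⟨?_, ?_⟩, ?_⟩
    · rw [hJ, mem_product, mem_product]
      refine ⟨?_, mem_univ _, mem_univ _⟩
      rw [hSq, mem_filter, Fintype.mem_piFinset]
      refine ⟨fun i => ?_, fun i => ?_⟩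
      · rw [mem_range]
        exact (hq i (by omega)).2
      · exact hstep i i.2
    · intro i hi
      rw [← eq1 i hi]
      exact hq i hi
    · intro i j hij hj
      rw [← eq1 i (by omega), ← eq1 j hj]
      exact hfar i j hij hj
    · exact suf_chain_congr e π n eq1 et1 hch
  calc cnt (fun π => FP e t n π) * (k - 2 * (n + 1)) ^ n
      ≤ (∑ a ∈ J, cnt (E a)) * (k - 2 * (n + 1)) ^ n :=
        Nat.mul_le_mul_right _ (hsub.trans (cnt_exists_le J E))
    _ = ∑ a ∈ J, cnt (E a) * (k - 2 * (n + 1)) ^ n := by rw [Finset.sum_mul]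
    _ ≤ ∑ _a ∈ J, k.factorial * 3 ^ n := Finset.sum_le_sum hone
    _ = J.card * (k.factorial * 3 ^ n) := by rw [sum_const, smul_eq_mul]
    _ ≤ ((k * (2 * t + 3) ^ n) * (4 ^ n * 2)) * (k.factorial * 3 ^ n) :=
        Nat.mul_le_mul_right _ hcard
    _ = k.factorial * (3 ^ n * (k * (2 * t + 3) ^ n) * (4 ^ n * 2)) := by ring

end Pool.Agent.SEQ

-- author of this block: helper14
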