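import Pool.Agent.Lib_helper26.SEQ.WSPV
import Pool.Agent.Lib_helper26.SEQ.WSPA
import Pool.Agent.Lib_helper26.SEQ.WSZS
import Pool.Agent.Lib_helper26.SEQ.WSZU
import Pool.Agent.Lib_helper26.SEQ.WSFB
import Pool.Agent.Lib_helper26.SEQ.WSNB
import Pool.Agent.Lib_helper26.SEQ.WSWN
import Pool.Agent.Lib_helper26.SEQ.WSWB
import Pool.Agent.Lib_helper26.SEQ.WSCN
import Pool.Agent.Lib_helper26.SEQ.WSUA
import Pool.Agent.Lib_helper26.SEQ.WSUB
import Pool.Agent.Lib_helper26.SEQ.WSUF
import Pool.Agent.Lib_helper26.SEQ.WSUN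
import Pool.Agent.Lib_helper26.SEQ.WSAR
import Pool.Agent.Lib_helper26.SEQ.WSAT
import Pool.Agent.Lib_helper26.SEQ.WSCA
import Pool.Agent.Lib_helper26.SEQ.WSCB
import Pool.Agent.Lib_helper26.SEQ.WSDE
import Pool.Agent.Lib_helper26.SEQ.WSSW
import Pool.Agent.Lib_helper26.WS.Basic

namespace Pool.Agent.SEQ

open Finset Equiv Function

variable {G : Type*} [AddCommGroup G] {k : ℕ}

theorem rr_contra (e : Fin k → G) (t : ℕ) (π : Perm (Fin k)) (x : ℕ) (s : Bool) (y : ℕ) (r : Bool)
    (h : RR e t π (x, s) (y, r)) : RR e t π (y, !r) (x, !s) := by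
  rcases h with h | ⟨h1, h2, h3, h4, h5⟩
  · left
    rcases h with h | h
    · right; simpa using h
    · left; simpa using h
  · right
    refine ⟨?_, ?_, ?_, h5, h4⟩
    · simpa using h2
    · simpa using h1
    · rcases h3 with h | h
      · right; exact h
      · left; exact h

/-- a good permutation yields a weak sequencing -/
theorem main_of_good (e : Fin k → G) (he0 : ∀ i, e i ≠ 0) (t N : ℕ) (ht : 1 ≤ t)
    (π : Perm (Fin k)) (hB1 : ¬ B1 e t π) (hB2 : ¬ B2 e t π)
    (hNC : ∀ n, 2 ≤ n → n ≤ N → ¬ NC e t n π) (hFP : ¬ FP e t N π) :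
    ∃ π' : Perm (Fin k), ∀ i j, i < j → j ≤ k → j ≤ i + t → ps e π' i ≠ ps e π' j := by
  have hno : ∀ x s, ¬ Relation.ReflTransGen (RR e t π) (x, s) (x, !s) := by
    intro x s h
    obtain ⟨c, hc, hcb⟩ := jump_of_path e t π hB1 _ _ h
    rcases hcb with hcb | ⟨_, _, h3, _, _⟩
    · have hne : ((x, s) : ℕ × Bool) ≠ c := by
        rw [← hcb]
        intro h'
        have := congrArg Prod.snd h'
        simp at this
      have := no_bad_jump_path e t N π hNC hFP _ _ hc hne
      rw [← hcb] at this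
      simp at this
    · have hne : ((x, s) : ℕ × Bool) ≠ c := by
        intro h'
        rw [← h'] at h3
        simp at h3
      have := no_bad_jump_path e t N π hNC hFP _ _ hc hne
      simp only at this h3
      omega
  obtain ⟨σ, hσ⟩ := two_sat (RR e t π) (fun x s y r h => rr_contra e t π x s y r h) hno (k + 1)
  obtain ⟨X, hX1, hX2, hX3⟩ := det e t π hB1 hB2 σ hσ
  obtain ⟨π', hπ'⟩ := swap_set e π X hX1 hX2
  refine ⟨π', fun i j hij hj hjt => ?_⟩
  rcases Nat.lt_or_ge (i + 1) j with h | h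
  · rw [hπ' i (by omega), hπ' j hj]
    exact hX3 i j (by omega) hjt hj
  · have : j = i + 1 := by omega
    subst this
    rw [ps_succ]
    intro h'
    have h0 : el e π' i = 0 := by
      have := h'.symm
      simpa using this
    unfold el at h0
    rw [dif_pos (by omega : i < k)] at h0
    exact he0 _ h0

theorem exists_good (e : Fin k → G) (he : Injective e) (t : ℕ) (ht : 666 ≤ t)
    (hk : 2000 * t ≤ k) :
    ∃ π : Perm (Fin k), ¬ B1 e t π ∧ ¬ B2 e t π ∧
      (∀ n, 2 ≤ n → n ≤ Nat.log 2 k + 1 → ¬ NC e t n π) ∧ ¬ FP e t (Nat.log 2 k + 1) π := by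
  set N := Nat.log 2 k + 1 with hN
  have key := arith t k N k.factorial (cnt (fun π => B1 e t π)) (cnt (fun π => B2 e t π))
    (cnt (fun π => FP e t N π)) (fun n => cnt (fun π => NC e t n π)) ht hk hN
    (Nat.factorial_pos k) (ub_one e he t) (ub_two e he t) (fun n hn _ => ub_near e he t n hn)
    (ub_far e he t N)
  have hle : cnt (fun π : Perm (Fin k) =>
      ((B1 e t π ∨ B2 e t π) ∨ (∃ n ∈ Ico 2 (N + 1), NC e t n π)) ∨ FP e t N π) <
      k.factorial := by
    refine lt_of_le_of_lt ?_ key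
    refine (cnt_or_le _ _).trans ?_
    gcongr
    refine (cnt_or_le _ _).trans ?_
    gcongr
    · exact cnt_or_le _ _
    · exact cnt_exists_le _ _
  obtain ⟨π, hπ⟩ := exists_of_cnt_lt hle
  push Not at hπ
  obtain ⟨⟨⟨h1, h2⟩, h3⟩, h4⟩ := hπ
  exact ⟨π, h1, h2, fun n hn hn' => h3 n (by simp; omega), h4⟩

theorem linear_range (t : ℕ) (ht : 0 < t) (A : Finset G)
    (h0 : (0 : G) ∉ A) (hA : 2000 * t ≤ A.card) :
    ∃ a : Fin A.card → G, Function.Injective a ∧ Set.range a = (A : Set G) ∧
      ∀ i j : ℕ, i < j → j ≤ A.card → j ≤ i + t →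
        ∑ m : Fin A.card with m.val < i, a m ≠ ∑ m : Fin A.card with m.val < j, a m := by
  rcases Nat.lt_or_ge t 667 with hsmall | hbig
  · apply Pool.Agent.Lib_helper26.WS.main ht A h0
    nlinarith
  · let e : Fin A.card → G := fun i => (A.equivFin.symm i : G)
    have he : Injective e := fun i j h => A.equivFin.symm.injective (Subtype.ext h)
    have hmem : ∀ i, e i ∈ A := fun i => (A.equivFin.symm i).2
    have he0 : ∀ i, e i ≠ 0 := fun i h => h0 (h ▸ hmem i)
    obtain ⟨π, h1, h2, h3, h4⟩ := exists_good e he t (by omega) hA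
    obtain ⟨π', hπ'⟩ := main_of_good e he0 t (Nat.log 2 A.card + 1) ht π h1 h2 h3 h4
    have hps : ∀ i ≤ A.card, ∑ m : Fin A.card with m.val < i, e (π' m) = ps e π' i := by
      intro i hi
      unfold ps
      symm
      refine Finset.sum_bij' (fun p hp => (⟨p, by
          have := Finset.mem_range.1 hp; omega⟩ : Fin A.card)) (fun m _ => (m : ℕ)) ?_ ?_ ?_ ?_ ?_
      · intro p hp
        simpa using hp
      · intro m hm
        simpa using hm
      · intro p hp; rfl
      · intro m hm; rfl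
      · intro p hp
        unfold el
        rw [dif_pos (by have := Finset.mem_range.1 hp; omega)]
    refine ⟨fun m => e (π' m), he.comp π'.injective, ?_, ?_⟩
    · ext g
      constructor
      · rintro ⟨m, rfl⟩
        exact hmem _
      · intro hg
        refine ⟨π'.symm (A.equivFin ⟨g, hg⟩), ?_⟩
        simp [e]
    · intro i j hij hj hjt
      rw [hps i (by omega), hps j hj]
      exact hπ' i j hij hj hjt

end Pool.Agent.SEQ
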