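import Pool.Agent.Lib_helper26.SEQ.Defs
import Pool.Agent.Lib_helper26.SEQ.WSNB
import Pool.Agent.Lib_helper26.SEQ.WSCN

/-! SUN: union bound for near-cycles. -/

namespace Pool.Agent.SEQ

open Finset Equiv Function

variable {G : Type*} [AddCommGroup G] {k : ℕ}

/-- extension of a finite sequence of positions -/
def sun_q (n : ℕ) (Q : Fin (n + 1) → ℕ) (i : ℕ) : ℕ := if h : i < n + 1 then Q ⟨i, h⟩ else 0

/-- extension of a finite sequence of types -/
def sun_tau (n : ℕ) (T : Fin n → Fin 4) (c : Bool) (i : ℕ) : Fin 4 :=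
  if h : i < n then T ⟨i, h⟩ else (if c then 1 else 0)

/-- conditions on the positions -/
def sun_cond (k n : ℕ) (q : ℕ → ℕ) : Prop :=
  (∀ i ≤ n, 2 ≤ q i ∧ q i < k) ∧
    (∀ i j, i < j → j ≤ n → ¬ (i = 0 ∧ j = n) → q i + 3 ≤ q j ∨ q j + 3 ≤ q i) ∧
    (q 0 ≤ q n + 2 ∧ q n ≤ q 0 + 2)

theorem sun_cnt_false {E : Perm (Fin k) → Prop} (h : ∀ π, ¬ E π) : cnt E = 0 := by
  classical
  unfold cnt
  rw [Finset.card_eq_zero, Finset.filter_eq_empty_iff]
  intro π _
  exact h π

theorem sun_chain_congr (e : Fin k → G) (π : Perm (Fin k)) (n : ℕ) {q q' : ℕ → ℕ}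
    {τ τ' : ℕ → Fin 4} (hq : ∀ i ≤ n, q i = q' i) (hτ : ∀ i ≤ n, τ i = τ' i)
    (h : Chain e π n q τ) : Chain e π n q' τ' := by
  intro i hi
  have := h i hi
  rw [hq i hi.le, hq (i + 1) hi, hτ i hi.le, hτ (i + 1) hi] at this
  exact this

/-- SUN -/
theorem ub_near (e : Fin k → G) (he : Injective e) (t n : ℕ) (hn : 2 ≤ n) :
    cnt (fun π => NC e t n π) * (k - 2 * (n + 1)) ^ n ≤
      k.factorial * (3 ^ (n - 1) * (5 * k * (2 * t + 3) ^ (n - 1)) * (4 ^ n * 2)) := by
  classical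
  let A : Finset (Fin (n + 1) → ℕ) :=
    (Fintype.piFinset fun _ : Fin (n + 1) => range k).filter fun q => (∀ i : Fin n,
      q i.castSucc ≤ q i.succ + (t + 1) ∧ q i.succ ≤ q i.castSucc + (t + 1)) ∧
      q 0 ≤ q (Fin.last n) + 2 ∧ q (Fin.last n) ≤ q 0 + 2
  let J : Finset ((Fin (n + 1) → ℕ) × (Fin n → Fin 4) × Bool) :=
    A ×ˢ ((univ : Finset (Fin n → Fin 4)) ×ˢ (univ : Finset Bool))
  let E : (Fin (n + 1) → ℕ) × (Fin n → Fin 4) × Bool → Perm (Fin k) → Prop := fun i π =>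
    sun_cond k n (sun_q n i.1) ∧ Chain e π n (sun_q n i.1) (sun_tau n i.2.1 i.2.2)
  have h1 : cnt (fun π => NC e t n π) ≤ cnt (fun π => ∃ i ∈ J, E i π) := by
    apply cnt_mono
    rintro π ⟨q, τ, c1, c2, c3, c4, c5, c6⟩
    have hq : ∀ i ≤ n, q i = sun_q n (fun j : Fin (n + 1) => q j) i := by
      intro i hi
      unfold sun_q
      rw [dif_pos (by omega)]
    have hτ : ∀ i ≤ n, τ i = sun_tau n (fun j : Fin n => τ j) (decide (τ n = 1)) i := by
      intro i hi
      unfold sun_tau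
      by_cases hin : i < n
      · rw [dif_pos hin]
      · rw [dif_neg hin]
        have : i = n := by omega
        subst this
        rcases c5 with c5 | c5
        · rw [c5]; simp
        · rw [c5]; simp
    refine ⟨(fun j : Fin (n + 1) => q j, fun j : Fin n => τ j, decide (τ n = 1)), ?_, ?_, ?_⟩
    · simp only [J, mem_product, mem_univ, and_true, A, mem_filter, Fintype.mem_piFinset,
        mem_range]
      refine ⟨fun i => (c1 i (by omega)).2, fun i => ?_, ?_⟩
      · have := c2 i i.2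
        simpa using this
      · simpa using c4
    · refine ⟨fun i hi => ?_, fun i j hij hj h => ?_, ?_⟩
      · show 2 ≤ sun_q n (fun j : Fin (n + 1) => q j) i ∧ sun_q n (fun j : Fin (n + 1) => q j) i < k
        rw [← hq i hi]
        exact c1 i hi
      · show sun_q n (fun j : Fin (n + 1) => q j) i + 3 ≤ sun_q n (fun j : Fin (n + 1) => q j) j ∨
          sun_q n (fun j : Fin (n + 1) => q j) j + 3 ≤ sun_q n (fun j : Fin (n + 1) => q j) i
        rw [← hq i (by omega), ← hq j hj]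
        exact c3 i j hij hj h
      · show sun_q n (fun j : Fin (n + 1) => q j) 0 ≤ sun_q n (fun j : Fin (n + 1) => q j) n + 2 ∧
          sun_q n (fun j : Fin (n + 1) => q j) n ≤ sun_q n (fun j : Fin (n + 1) => q j) 0 + 2
        rw [← hq 0 (by omega), ← hq n le_rfl]
        exact c4
    · exact sun_chain_congr e π n hq hτ c6
  have h2 : cnt (fun π => ∃ i ∈ J, E i π) ≤ ∑ i ∈ J, cnt (E i) := cnt_exists_le J E
  have h3 : J.card ≤ (5 * k * (2 * t + 3) ^ (n - 1)) * (4 ^ n * 2) := by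
    have hA : A.card ≤ 5 * k * (2 * t + 3) ^ (n - 1) := seq_count_near k t n (by omega)
    simp only [J, card_product, card_univ, Fintype.card_bool, Fintype.card_pi, Finset.prod_const,
      Fintype.card_fin]
    exact Nat.mul_le_mul_right _ hA
  have h4 : ∀ i, cnt (E i) * (k - 2 * (n + 1)) ^ n ≤ k.factorial * 3 ^ (n - 1) := by
    intro i
    by_cases hc : sun_cond k n (sun_q n i.1)
    · have h5 := near_bound e he n hn (sun_q n i.1) (sun_tau n i.2.1 i.2.2) hc.1 hc.2.1 hc.2.2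
      refine le_trans (Nat.mul_le_mul_right _ ?_) h5
      exact cnt_mono fun π h => h.2
    · rw [sun_cnt_false (fun π h => hc h.1)]
      simp
  calc cnt (fun π => NC e t n π) * (k - 2 * (n + 1)) ^ n
      ≤ (∑ i ∈ J, cnt (E i)) * (k - 2 * (n + 1)) ^ n := Nat.mul_le_mul_right _ (h1.trans h2)
    _ = ∑ i ∈ J, cnt (E i) * (k - 2 * (n + 1)) ^ n := Finset.sum_mul _ _ _
    _ ≤ ∑ _i ∈ J, k.factorial * 3 ^ (n - 1) := Finset.sum_le_sum fun i _ => h4 i
    _ = J.card * (k.factorial * 3 ^ (n - 1)) := by rw [Finset.sum_const, smul_eq_mul]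
    _ ≤ ((5 * k * (2 * t + 3) ^ (n - 1)) * (4 ^ n * 2)) * (k.factorial * 3 ^ (n - 1)) :=
        Nat.mul_le_mul_right _ h3
    _ = k.factorial * (3 ^ (n - 1) * (5 * k * (2 * t + 3) ^ (n - 1)) * (4 ^ n * 2)) := by ring

end Pool.Agent.SEQ

-- author of this block: helper80
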